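import Mathlib

/-! Statements of the steps of the proof that equality of degrees is not existentially
definable in the ring of complex polynomials. -/

namespace Pool.Agent.MP_d395f7_lc.H9

open Polynomial

/-- The tuple `(t, x)`. -/
noncomputable def tup {A ι : Type} [CommRing A] (x : ι → A[X]) : Option ι → A[X] :=
  fun o => o.elim X x

/-- The ring-theoretic main theorem. -/
def MainS : Prop :=
  ∀ (k : Type) [Field k] [Algebra k ℂ] [Countable k] (ι : Type) [Fintype ι]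
    (x : ι → ℂ[X]) (j0 : ι) (d D : ℕ), Fintype.card ι + 1 ≤ d →
    AlgebraicIndependent k (fun i : Fin (d + 1) => (x j0).coeff i) →
    ∃ x' : ι → ℂ[X], D < (x' j0).natDegree ∧ ∀ Q : MvPolynomial (Option ι) k,
      MvPolynomial.aeval (tup x') Q = 0 ↔ MvPolynomial.aeval (tup x) Q = 0

/-- A finite tuple in a domain over a countable subfield has a copy in the complex numbers. -/
def EmbS : Prop :=
  ∀ (k : Type) [Field k] [Algebra k ℂ] [Countable k] (A : Type) [CommRing A] [IsDomain A]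
    [Algebra k A] (σ : Type) [Finite σ] (v : σ → A),
    ∃ c : σ → ℂ, ∀ Q : MvPolynomial σ k,
      MvPolynomial.aeval c Q = 0 ↔ MvPolynomial.aeval v Q = 0

/-- Some Taylor coefficient is transcendental over the field generated by the tuple. -/
def TransS : Prop :=
  ∀ (k : Type) [Field k] [Algebra k ℂ] (ι : Type) [Fintype ι]
    (x : ι → ℂ[X]) (j0 : ι) (d : ℕ), Fintype.card ι + 1 ≤ d →
    AlgebraicIndependent k (fun i : Fin (d + 1) => (x j0).coeff i) →
    ∃ i : ℕ, Transcendental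
      (IntermediateField.adjoin k
        (Set.range fun o : Option ι => algebraMap ℂ[X] (RatFunc ℂ) (tup x o)))
      (algebraMap ℂ[X] (RatFunc ℂ) (hasseDeriv i (x j0)))

/-- A discrete valuation ring over `F` in which a given transcendental element has a pole. -/
def DvrS : Prop :=
  ∀ (F L : Type) [Field F] [CharZero F] [Field L] [Algebra F L] (s : L), Transcendental F s →
    ∀ A : Finset L, ∃ (O : Subalgebra F L) (e : O), e ≠ 0 ∧ (Ideal.span {e}).IsMaximal ∧
      s ∉ O ∧ ∀ a ∈ A, ∃ n : ℕ, (e : L) ^ n * a ∈ O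

/-- The data of step 1: a point `g` with coordinates in `F`, and a polynomial arc through it
over a ring `O` with uniformiser `e` and residue field `E`, whose `j0`-th coordinate has
Taylor coefficients with a pole. -/
structure Pin (k : Type) [Field k] (ι : Type) (j0 : ι) where
  F : Type
  O : Type
  E : Type
  [iF : Field F]
  [iO : CommRing O]
  [iD : IsDomain O]
  [iE : Field E]
  [akF : Algebra k F]
  [akO : Algebra k O]
  [akE : Algebra k E]
  [aFO : Algebra F O]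
  [aFE : Algebra F E]
  [tO : IsScalarTower k F O]
  [tE : IsScalarTower k F E]
  res : O →ₐ[F] E
  hs : Function.Surjective res
  e : O
  he : e ≠ 0
  hk : ∀ o, res o = 0 ↔ e ∣ o
  g : Option ι → F
  hg : ∀ a : F, ∃ Q₁ Q₂ : MvPolynomial (Option ι) k,
    a = MvPolynomial.aeval g Q₁ / MvPolynomial.aeval g Q₂
  N : ℕ
  J : ℕ
  h : ℕ
  i0 : ℕ
  R : Option ι → O[X]
  hN : ∀ j, (R j).natDegree < N
  hrel : ∀ Q : MvPolynomial (Option ι) k, MvPolynomial.aeval g Q = 0 →
    MvPolynomial.aeval (fun j => C (algebraMap F O (g j)) + X * R j) Q = 0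
  hRt : R none = C (e ^ J)
  φ : ℕ → O
  hφ : ∀ i, (R (some j0)).coeff i = e ^ (J * (i + 1) - h) * φ i
  h1 : 1 ≤ h
  hJ : h ≤ J
  hi0 : i0 < N
  hu : ¬ e ∣ φ i0
  hgt : ∀ i, i0 < i → e ∣ φ i

attribute [instance] Pin.iF Pin.iO Pin.iD Pin.iE Pin.akF Pin.akO Pin.akE Pin.aFO Pin.aFE
  Pin.tO Pin.tE

/-- Step 1. -/
def PinS : Prop :=
  ∀ (k : Type) [Field k] [Algebra k ℂ] (ι : Type) [Fintype ι]
    (x : ι → ℂ[X]) (j0 : ι) (d : ℕ), Fintype.card ι + 1 ≤ d →
    AlgebraicIndependent k (fun i : Fin (d + 1) => (x j0).coeff i) →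
    ∃ P : Pin k ι j0, ∀ Q : MvPolynomial (Option ι) k,
      MvPolynomial.aeval P.g Q = 0 ↔ MvPolynomial.aeval (tup x) Q = 0

/-- Polynomial arcs of bounded degree over every nilpotent thickening. -/
def Arcs (k : Type) [Field k] {ι : Type} (j0 : ι) {F E : Type} [Field F] [Field E]
    [Algebra k F] [Algebra k E] (g : Option ι → F) (M n0 c0 c1 : ℕ) (u : E) : Prop :=
  ∀ (B : Type) [CommRing B] [Algebra k B] (inc : E →ₐ[k] B) (p : B), IsNilpotent p →
    ∃ (S : F →ₐ[k] B[X]) (α : B), S (g none) = C α + C (p ^ c1) * X ∧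
      (∀ j, (S (g j)).natDegree ≤ M) ∧ (S (g (some j0))).coeff n0 = inc u * p ^ c0

/-- Steps 2 to 4. -/
def LevelS : Prop :=
  ∀ (k : Type) [Field k] [CharZero k] (ι : Type) (j0 : ι) (P : Pin k ι j0) (D : ℕ),
    ∃ (M n0 c0 c1 : ℕ) (u : P.E), u ≠ 0 ∧ D < n0 ∧ Arcs k j0 P.g M n0 c0 c1 u

/-- Step 5. -/
def LimitS : Prop :=
  ∀ (k : Type) [Field k] [Algebra k ℂ] [Countable k] (ι : Type) [Fintype ι] (j0 : ι)
    (F E : Type) [Field F] [Field E] [Algebra k F] [Algebra k E] (g : Option ι → F)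
    (M n0 c0 c1 : ℕ) (u : E), u ≠ 0 → Arcs k j0 g M n0 c0 c1 u →
    ∃ x' : ι → ℂ[X], n0 ≤ (x' j0).natDegree ∧ ∀ Q : MvPolynomial (Option ι) k,
      MvPolynomial.aeval (tup x') Q = 0 ↔ MvPolynomial.aeval g Q = 0

theorem main_of (h1 : PinS) (h2 : LevelS) (h3 : LimitS) : MainS := by
  intro k _ _ _ ι _ x j0 d D hd hx
  have : CharZero k := (algebraMap k ℂ).charZero
  obtain ⟨P, hP⟩ := h1 k ι x j0 d hd hx
  obtain ⟨M, n0, c0, c1, u, hu, hD, hA⟩ := h2 k ι j0 P D
  obtain ⟨x', hx', hQ⟩ := h3 k ι j0 P.F P.E P.g M n0 c0 c1 u hu hA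
  exact ⟨x', hD.trans_le hx', fun Q => (hQ Q).trans (hP Q)⟩

end Pool.Agent.MP_d395f7_lc.H9
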