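import Pool.Agent.MP_d395f7_lc.H9.Spec

/-! A discrete valuation ring in which a given transcendental element has a pole. -/

namespace Pool.Agent.MP_d395f7_lc.H9

open Polynomial WithZero
open scoped WithZero

/-- A discrete valuation of a finite separable extension above a given non-unit. -/
theorem dvr_val (R K0 K : Type) [CommRing R] [IsDedekindDomain R] [Field K0] [Algebra R K0]
    [IsFractionRing R K0] [Field K] [Algebra K0 K] [Algebra R K] [IsScalarTower R K0 K]
    [FiniteDimensional K0 K] [Algebra.IsSeparable K0 K] (t : R) (ht0 : t ≠ 0) (ht : ¬ IsUnit t) :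
    ∃ (w : Valuation K ℤᵐ⁰) (π : K), w π = exp (-1) ∧ (∀ r : R, w (algebraMap R K r) ≤ 1) ∧
      w (algebraMap R K t) < 1 := by
  let C := integralClosure R K
  have : IsDedekindDomain C := integralClosure.isDedekindDomain R K0 K
  have : IsFractionRing C K := integralClosure.isFractionRing_of_finite_extension K0 K
  have hinj : Function.Injective (algebraMap R K) := by
    rw [IsScalarTower.algebraMap_eq R K0 K]
    exact (algebraMap K0 K).injective.comp (IsFractionRing.injective R K0)
  have hinj' : Function.Injective (algebraMap R C) := fun a b h =>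
    hinj (congrArg Subtype.val h)
  obtain ⟨P, hP, hle⟩ := Ideal.exists_le_maximal (Ideal.span {t})
    (fun h => ht (Ideal.span_singleton_eq_top.1 h))
  have htP : t ∈ P := hle (Ideal.mem_span_singleton_self t)
  obtain ⟨Q, hQ, hQP⟩ := Ideal.exists_ideal_over_maximal_of_isIntegral (S := C) P (by
    rw [(RingHom.injective_iff_ker_eq_bot _).1 hinj']
    exact bot_le)
  have htQ : algebraMap R C t ∈ Q := by
    rw [← Ideal.mem_comap, hQP]
    exact htP
  have hQ0 : Q ≠ ⊥ := by
    intro h
    rw [h, Ideal.mem_bot] at htQ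
    exact ht0 (hinj' (by rw [htQ, map_zero]))
  let v : IsDedekindDomain.HeightOneSpectrum C := ⟨Q, hQ.isPrime, hQ0⟩
  obtain ⟨π, hπ⟩ := v.valuation_exists_uniformizer K
  refine ⟨v.valuation K, π, hπ, fun r => ?_, ?_⟩
  · exact v.valuation_le_one (algebraMap R C r)
  · exact (v.valuation_lt_one_iff_mem (K := K) (algebraMap R C t)).2 htQ

/-- The valuation ring of a discrete valuation on a subfield, as a subalgebra. -/
theorem dvr_pack {F L K : Type} [Field F] [Field L] [Algebra F L] [Field K] (j : K →+* L)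
    (w : Valuation K ℤᵐ⁰) (π : K) (hπ : w π = exp (-1))
    (hF : ∀ c : F, ∃ y : K, j y = algebraMap F L c ∧ w y ≤ 1) (s : L) (t : K) (ht0 : t ≠ 0)
    (ht : w t < 1) (hs : j t = s⁻¹) (A : Finset L) (hA : ∀ a ∈ A, ∃ y, j y = a) :
    ∃ (O : Subalgebra F L) (e : O), e ≠ 0 ∧ (Ideal.span {e}).IsMaximal ∧
      s ∉ O ∧ ∀ a ∈ A, ∃ n : ℕ, (e : L) ^ n * a ∈ O := by
  let O : Subalgebra F L :=
    { carrier := {x | ∃ y : K, j y = x ∧ w y ≤ 1}
      mul_mem' := by
        rintro _ _ ⟨a, rfl, ha⟩ ⟨b, rfl, hb⟩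
        exact ⟨a * b, map_mul _ _ _, by rw [map_mul]; exact mul_le_one' ha hb⟩
      add_mem' := by
        rintro _ _ ⟨a, rfl, ha⟩ ⟨b, rfl, hb⟩
        exact ⟨a + b, map_add _ _ _, w.map_add_le ha hb⟩
      algebraMap_mem' := hF }
  have hO : ∀ x : L, x ∈ O ↔ ∃ y : K, j y = x ∧ w y ≤ 1 := fun _ => Iff.rfl
  have hπ1 : w π < 1 := by
    rw [hπ, ← exp_zero, exp_lt_exp]
    norm_num
  have hπ0 : π ≠ 0 := by
    intro h
    rw [h, map_zero] at hπ
    exact exp_ne_zero hπ.symm
  let e : O := ⟨j π, π, rfl, hπ1.le⟩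
  refine ⟨O, e, fun h => hπ0 ?_, ?_, ?_, fun a ha => ?_⟩
  · exact (map_eq_zero j).1 (congrArg Subtype.val h)
  · rw [Ideal.isMaximal_iff]
    refine ⟨fun h => ?_, fun J x _ hx hxJ => ?_⟩
    · obtain ⟨⟨_, b, rfl, hb⟩, h1⟩ := Ideal.mem_span_singleton'.1 h
      have h2 : j (b * π) = j 1 := by
        rw [map_mul, map_one]
        exact congrArg Subtype.val h1
      have h3 := congrArg w (j.injective h2)
      rw [map_mul, map_one] at h3
      exact ((mul_le_of_le_one_left' hb).trans_lt hπ1).ne h3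
    · obtain ⟨_, y, rfl, hy⟩ := x
      have h1 : w y = 1 := by
        by_contra hne
        apply hx
        have h2 : w y < 1 := lt_of_le_of_ne hy hne
        have h3 : w (y / π) ≤ 1 := by
          rw [map_div₀, hπ, div_eq_mul_inv, ← exp_neg, neg_neg]
          have h4 : w y * exp 1 < 1 * exp 1 := mul_lt_mul_of_pos_right h2 (by
            exact zero_lt_iff.2 exp_ne_zero)
          exact (lt_mul_exp_iff_le one_ne_zero).1 h4
        refine Ideal.mem_span_singleton'.2 ⟨⟨j (y / π), y / π, rfl, h3⟩, Subtype.ext ?_⟩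
        change j (y / π) * j π = j y
        rw [← map_mul, div_mul_cancel₀ _ hπ0]
      have hy0 : y ≠ 0 := by
        intro h
        rw [h, map_zero] at h1
        exact zero_ne_one h1
      have h2 := J.mul_mem_left ⟨j y⁻¹, y⁻¹, rfl, by rw [map_inv₀, h1, inv_one]⟩ hxJ
      convert h2 using 1
      apply Subtype.ext
      change (1 : L) = j y⁻¹ * j y
      rw [← map_mul, inv_mul_cancel₀ hy0, map_one]
  · rintro ⟨y, h1, h2⟩
    have h3 : y = t⁻¹ := j.injective (by rw [h1, map_inv₀, hs, inv_inv])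
    have h4 : w (y * t) < 1 := by
      rw [map_mul]
      exact (mul_le_of_le_one_left' h2).trans_lt ht
    rw [h3, inv_mul_cancel₀ ht0, map_one] at h4
    exact lt_irrefl _ h4
  · obtain ⟨y, rfl⟩ := hA a ha
    refine ⟨(log (w y)).toNat, π ^ (log (w y)).toNat * y, by rw [map_mul, map_pow], ?_⟩
    rw [map_mul, map_pow, hπ, ← exp_nsmul]
    calc exp ((log (w y)).toNat • (-1 : ℤ)) * w y
        ≤ exp ((log (w y)).toNat • (-1 : ℤ)) * exp (log (w y)) :=
          mul_le_mul_right le_exp_log _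
      _ ≤ 1 := by
          rw [← exp_add, ← exp_zero, exp_le_exp, nsmul_eq_mul]
          omega

/-- The same inside a field that is algebraic over a Dedekind domain. -/
theorem dvr_mid {R L : Type} [CommRing R] [IsDedekindDomain R] [Field L] [CharZero L]
    [Algebra R L] [FaithfulSMul R L] (halg : ∀ a : L, IsAlgebraic R a) (τ : R) (hτ0 : τ ≠ 0)
    (hτu : ¬ IsUnit τ) (A : Finset L) :
    ∃ (K : Type) (_ : Field K) (j : K →+* L) (i : R →+* K) (w : Valuation K ℤᵐ⁰) (π : K),
      w π = exp (-1) ∧ (∀ r : R, w (i r) ≤ 1) ∧ w (i τ) < 1 ∧ (∀ r, j (i r) = algebraMap R L r) ∧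
        ∀ a ∈ A, ∃ y, j y = a := by
  let K0 := FractionRing R
  let _ : Algebra K0 L := FractionRing.liftAlgebra R L
  have : IsScalarTower R K0 L := FractionRing.isScalarTower_liftAlgebra R L
  have : CharZero K0 := (algebraMap K0 L).charZero
  let K : IntermediateField K0 L := IntermediateField.adjoin K0 (A : Set L)
  have : FiniteDimensional K0 K := IntermediateField.finiteDimensional_adjoin fun a _ =>
    ((IsFractionRing.isAlgebraic_iff R K0 L).1 (halg a)).isIntegral
  obtain ⟨w, π, h1, h2, h3⟩ := dvr_val R K0 K τ hτ0 hτu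
  refine ⟨K, inferInstance, algebraMap K L, algebraMap R K, w, π, h1, h2, h3, fun r => ?_,
    fun a ha => ⟨⟨a, IntermediateField.subset_adjoin _ _ ha⟩, rfl⟩⟩
  rw [IsScalarTower.algebraMap_apply R K0 K, ← IsScalarTower.algebraMap_apply K0 K L,
    ← IsScalarTower.algebraMap_apply R K0 L]

theorem dvrS : DvrS := by
  intro F L _ _ _ _ s hs A
  have hs0 : s ≠ 0 := fun h => hs (h ▸ isAlgebraic_zero)
  have ht : Transcendental F s⁻¹ := fun h => hs (by simpa using h.inv)
  generalize htdef : s⁻¹ = t at ht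
  have ht0 : t ≠ 0 := htdef ▸ inv_ne_zero hs0
  obtain ⟨T, hT1, hT⟩ := exists_isTranscendenceBasis_superset (R := F) (s := {t})
    ((algebraicIndependent_singleton_iff (x := fun i : ({t} : Set L) => id (i : L))
      ⟨t, rfl⟩).2 ht)
  have htT : t ∈ T := hT1 rfl
  let S : Set T := {x | x ≠ ⟨t, htT⟩}
  let F1 : IntermediateField F L := IntermediateField.adjoin F (((↑) : T → L) '' S)
  have ht1 : Transcendental F1 t :=
    IntermediateField.transcendental_adjoin_iff.2
      (hT.1.transcendental_adjoin (s := S) (i := ⟨t, htT⟩) (by simp [S]))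
  let R : Subalgebra F1 L := Algebra.adjoin F1 {t}
  let φ : F1[X] ≃ₐ[F1] R := Polynomial.algEquivOfTranscendental F1 t ht1
  have : IsPrincipalIdealRing R := IsPrincipalIdealRing.of_surjective φ.toRingHom φ.surjective
  have hle : Algebra.adjoin F (Set.range ((↑) : T → L)) ≤ R.restrictScalars F := by
    rw [Algebra.adjoin_le_iff]
    rintro _ ⟨x, rfl⟩
    by_cases hx : x = ⟨t, htT⟩
    · rw [hx]
      exact Algebra.self_mem_adjoin_singleton F1 t
    · exact R.algebraMap_mem ⟨x, IntermediateField.subset_adjoin _ _ ⟨x, hx, rfl⟩⟩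
  have halg : ∀ a : L, IsAlgebraic R a := fun a =>
    (hT.isAlgebraic.isAlgebraic a).tower_top_of_subalgebra_le hle
  have : CharZero L := charZero_of_injective_algebraMap (algebraMap F L).injective
  let τ : R := ⟨t, Algebra.self_mem_adjoin_singleton F1 t⟩
  have hτ : φ X = τ := Polynomial.aeval_X τ
  have hτ0 : τ ≠ 0 := fun h => ht0 (congrArg Subtype.val h)
  have hτu : ¬ IsUnit τ := by
    intro h
    rw [← hτ] at h
    exact Polynomial.not_isUnit_X ((MulEquiv.isUnit_map φ).1 h)
  obtain ⟨K, _, j, i, w, π, h1, h2, h3, hj, hA⟩ := dvr_mid halg τ hτ0 hτu A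
  refine dvr_pack j w π h1 (fun c => ?_) s (i τ) (fun h => ?_) h3 ((hj τ).trans htdef.symm) A hA
  · exact ⟨i (algebraMap F1 R (algebraMap F F1 c)), hj _, h2 _⟩
  · have h4 := hj τ
    rw [h, map_zero] at h4
    exact ht0 h4.symm

end Pool.Agent.MP_d395f7_lc.H9
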