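import Pool.Agent.MP_d395f7_lc.H9.Spec

/-! A finite tuple in a domain over a countable subfield has a copy in the complex numbers. -/

namespace Pool.Agent.MP_d395f7_lc.H9

open Cardinal

theorem emb_indep (k : Type) [Field k] [Algebra k ℂ] [Countable k] (s : ℕ) :
    ∃ y : Fin s → ℂ, AlgebraicIndependent k y := by
  obtain ⟨ι, x, hx⟩ := exists_isTranscendenceBasis' k ℂ
  have h1 : ℵ₀ < #ℂ := by rw [mk_complex]; exact aleph0_lt_continuum
  have h2 := IsAlgClosed.cardinal_eq_cardinal_transcendence_basis_of_aleph0_lt' x hx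
    (mk_le_aleph0 (α := k)) h1
  have : Infinite ι := infinite_iff.2 (h2 ▸ h1.le)
  exact ⟨_, hx.1.comp (fun i : Fin s => Infinite.natEmbedding ι i)
    ((Infinite.natEmbedding ι).injective.comp Fin.val_injective)⟩

theorem emb_hom (k : Type) [Field k] [Algebra k ℂ] [Countable k] (B : Type) [CommRing B]
    [IsDomain B] [Algebra k B] [Algebra.FiniteType k B] :
    ∃ φ : B →ₐ[k] ℂ, Function.Injective φ := by
  obtain ⟨s, g, h1, h2⟩ := exists_integral_inj_algHom_of_fg k B
  obtain ⟨y, hy⟩ := emb_indep k s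
  let := g.toRingHom.toAlgebra
  let := (MvPolynomial.aeval y : MvPolynomial (Fin s) k →ₐ[k] ℂ).toRingHom.toAlgebra
  have : IsScalarTower k (MvPolynomial (Fin s) k) B :=
    .of_algebraMap_eq fun a => (g.commutes a).symm
  have : IsScalarTower k (MvPolynomial (Fin s) k) ℂ :=
    .of_algebraMap_eq fun a => ((MvPolynomial.aeval y).commutes a).symm
  have : Algebra.IsIntegral (MvPolynomial (Fin s) k) B := ⟨h2⟩
  have : FaithfulSMul (MvPolynomial (Fin s) k) B := (faithfulSMul_iff_algebraMap_injective _ _).2 h1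
  have i2 : Function.Injective (algebraMap (MvPolynomial (Fin s) k) ℂ) := hy
  have : FaithfulSMul (MvPolynomial (Fin s) k) ℂ := (faithfulSMul_iff_algebraMap_injective _ _).2 i2
  let φ : B →ₐ[MvPolynomial (Fin s) k] ℂ := IsAlgClosed.lift
  refine ⟨φ.restrictScalars k, ?_⟩
  change Function.Injective φ.toRingHom
  rw [RingHom.injective_iff_ker_eq_bot]
  refine Ideal.eq_bot_of_comap_eq_bot (R := MvPolynomial (Fin s) k) ?_
  rw [RingHom.comap_ker, ← RingHom.injective_iff_ker_eq_bot]
  intro a b h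
  exact i2 ((φ.commutes a).symm.trans (h.trans (φ.commutes b)))

theorem embS : EmbS := by
  intro k _ _ _ A _ _ _ σ _ v
  have : Algebra.FiniteType k (MvPolynomial.aeval v : MvPolynomial σ k →ₐ[k] A).range :=
    .of_surjective _ (MvPolynomial.aeval v : MvPolynomial σ k →ₐ[k] A).rangeRestrict_surjective
  obtain ⟨φ, hφ⟩ := emb_hom k (MvPolynomial.aeval v : MvPolynomial σ k →ₐ[k] A).range
  let ψ := φ.comp (MvPolynomial.aeval v : MvPolynomial σ k →ₐ[k] A).rangeRestrict
  refine ⟨fun i => ψ (MvPolynomial.X i), fun Q => ?_⟩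
  have e : (MvPolynomial.aeval fun i => ψ (MvPolynomial.X i)) = ψ :=
    MvPolynomial.algHom_ext fun i => MvPolynomial.aeval_X _ i
  rw [e]
  exact (map_eq_zero_iff φ hφ).trans Subtype.ext_iff

end Pool.Agent.MP_d395f7_lc.H9
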