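import Mathlib

/-! Truncated expansions in a uniformiser, with a coefficient field containing `F`. -/

namespace Pool.Agent.MP_d395f7_lc.H9

open Polynomial

theorem exp_exists {F O E : Type*} [Field F] [CharZero F] [CommRing O] [IsDomain O] [Algebra F O]
    [Field E] [Algebra F E] (res : O →ₐ[F] E) (hs : Function.Surjective res) (e : O)
    (he : e ≠ 0) (hk : ∀ o, res o = 0 ↔ e ∣ o) (r : ℕ) :
    ∃ ρ : O →ₐ[F] AdjoinRoot (X ^ (r + 1) : E[X]), ρ e = AdjoinRoot.root _ ∧
      ∀ o, AdjoinRoot.root _ ∣ ρ o - AdjoinRoot.of _ (res o) := by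
  have hre : res e = 0 := (hk e).mpr dvd_rfl
  set I : Ideal O := Ideal.span {e ^ (r + 1)} with hI
  let π : O →ₐ[F] O ⧸ I := Ideal.Quotient.mkₐ F I
  have hπ : Function.Surjective π := Ideal.Quotient.mk_surjective
  let res' : (O ⧸ I) →ₐ[F] E := Ideal.Quotient.liftₐ I res fun a ha => by
    obtain ⟨c, rfl⟩ := Ideal.mem_span_singleton.mp ha
    simp [hre]
  have hr' : ∀ o, res' (π o) = res o := fun o => rfl
  have hs' : Function.Surjective res' := fun x => by
    obtain ⟨o, rfl⟩ := hs x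
    exact ⟨π o, rfl⟩
  have hk' : ∀ a, res' a = 0 → π e ∣ a := fun a ha => by
    obtain ⟨o, rfl⟩ := hπ a
    exact map_dvd π ((hk o).mp ha)
  have hnil : π e ^ (r + 1) = 0 := by
    rw [← map_pow]
    exact Ideal.Quotient.eq_zero_iff_mem.mpr (Ideal.mem_span_singleton_self _)
  have hker : IsNilpotent (RingHom.ker (res' : (O ⧸ I) →+* E)) := by
    refine ⟨r + 1, ?_⟩
    have h1 : RingHom.ker (res' : (O ⧸ I) →+* E) ≤ Ideal.span {π e} := fun a ha =>
      Ideal.mem_span_singleton.mpr (hk' a ha)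
    have h2 := Ideal.pow_right_mono h1 (r + 1)
    rw [Ideal.span_singleton_pow, hnil] at h2
    simpa using h2
  obtain ⟨ι, b, hb⟩ := exists_isTranscendenceBasis' F E
  have h2 : Algebra.IsAlgebraic (IntermediateField.adjoin F (Set.range b)) E :=
    hb.isAlgebraic_field
  have : CharZero (IntermediateField.adjoin F (Set.range b)) :=
    charZero_of_injective_algebraMap (algebraMap F _).injective
  have : Algebra.FormallySmooth F E :=
    Algebra.FormallySmooth.of_algebraicIndependent_of_isSeparable hb.1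
  let σ : E →ₐ[F] O ⧸ I := Algebra.FormallySmooth.liftOfSurjective (AlgHom.id F E) res' hs' hker
  have hσ : ∀ x, res' (σ x) = x := fun x =>
    Algebra.FormallySmooth.liftOfSurjective_apply (AlgHom.id F E) res' hs' hker x
  let Ψ : AdjoinRoot (X ^ (r + 1) : E[X]) →ₐ[F] O ⧸ I :=
    AdjoinRoot.liftAlgHom _ σ (π e) (by rw [eval₂_X_pow, hnil])
  have hΨr : Ψ (AdjoinRoot.root _) = π e := AdjoinRoot.liftAlgHom_root ..
  have hΨo : ∀ x, Ψ (AdjoinRoot.of _ x) = σ x := fun x => AdjoinRoot.liftAlgHom_of ..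
  have hsurj : Function.Surjective Ψ := by
    have : ∀ l : ℕ, ∀ a, ∃ b, π e ^ l ∣ a - Ψ b := by
      intro l
      induction l with
      | zero => exact fun a => ⟨0, by simp⟩
      | succ l ih =>
        intro a
        obtain ⟨b, a', h⟩ := ih a
        obtain ⟨a'', h'⟩ := hk' (a' - σ (res' a')) (by rw [map_sub, hσ, sub_self])
        refine ⟨b + AdjoinRoot.root _ ^ l * AdjoinRoot.of _ (res' a'), a'', ?_⟩
        rw [map_add, map_mul, map_pow, hΨr, hΨo]
        linear_combination h + π e ^ l * h'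
    intro a
    obtain ⟨b, c, h⟩ := this (r + 1) a
    rw [hnil, zero_mul, sub_eq_zero] at h
    exact ⟨b, h.symm⟩
  have hinj : Function.Injective Ψ := by
    rw [injective_iff_map_eq_zero]
    intro b hb0
    obtain ⟨q, rfl⟩ := AdjoinRoot.mk_surjective b
    rw [AdjoinRoot.mk_eq_zero]
    have : ∀ j : ℕ, j ≤ r + 1 → (X : E[X]) ^ j ∣ q := by
      intro j
      induction j with
      | zero => simp
      | succ j ih =>
        intro hj
        obtain ⟨q', rfl⟩ := ih (by omega)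
        rw [pow_succ]
        refine mul_dvd_mul_left _ (X_dvd_iff.mpr ?_)
        have h0 : eval₂ (σ : E →+* O ⧸ I) (π e) (X ^ j * q') = 0 := hb0
        rw [eval₂_mul, eval₂_X_pow] at h0
        obtain ⟨u, hu⟩ := hπ (eval₂ (σ : E →+* O ⧸ I) (π e) q')
        rw [← hu, ← map_pow, ← map_mul] at h0
        have h1 : e ^ (r + 1) ∣ e ^ j * u :=
          Ideal.mem_span_singleton.mp (Ideal.Quotient.eq_zero_iff_mem.mp h0)
        have h3 : e ^ j * e ∣ e ^ j * u := by
          rw [← pow_succ]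
          exact (pow_dvd_pow e hj).trans h1
        have h4 : res' (π u) = 0 := (hk u).mpr ((mul_dvd_mul_iff_left (pow_ne_zero j he)).mp h3)
        rw [hu] at h4
        have h5 := hom_eval₂ q' (σ : E →+* O ⧸ I) (res' : (O ⧸ I) →+* E) (π e)
        have h6 : (res' : (O ⧸ I) →+* E).comp (σ : E →+* O ⧸ I) = RingHom.id E :=
          RingHom.ext hσ
        have h7 : (res' : (O ⧸ I) →+* E) (π e) = 0 := hre
        rw [h6, h7, eval₂_at_zero] at h5
        exact h5.symm.trans h4
    exact this _ le_rfl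
  let Φ := AlgEquiv.ofBijective Ψ ⟨hinj, hsurj⟩
  have hΦ : ∀ a, Ψ (Φ.symm a) = a := fun a => Φ.apply_symm_apply a
  refine ⟨Φ.symm.toAlgHom.comp π, hinj ((hΦ _).trans hΨr.symm), fun o => ?_⟩
  obtain ⟨a, ha⟩ := hk' (π o - σ (res o)) (by rw [map_sub, hσ, hr', sub_self])
  refine ⟨Φ.symm a, hinj ?_⟩
  rw [map_sub, map_mul, hΨr, hΨo, hΦ, ← ha]
  congr 1
  exact hΦ _

theorem theta_exists {k F O E C : Type*} [Field k] [Field F] [CharZero F] [CommRing O]
    [IsDomain O] [Algebra F O] [Field E] [Algebra F E] [Algebra k F] [Algebra k O] [Algebra k E]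
    [IsScalarTower k F O] [IsScalarTower k F E] [CommRing C] [Algebra k C]
    (res : O →ₐ[F] E) (hs : Function.Surjective res) (e : O)
    (he : e ≠ 0) (hk : ∀ o, res o = 0 ↔ e ∣ o) (q : C) (hq : IsNilpotent q) :
    ∃ θ : (E →ₐ[k] C) → (O →ₐ[k] C), ∀ T, θ T e = q ∧ (∀ o, q ∣ θ T o - T (res o)) ∧
      (∀ a : F, θ T (algebraMap F O a) = T (algebraMap F E a)) ∧
      ∀ (T' : E →ₐ[k] C) (c : C), (∀ x, c ∣ T x - T' x) → ∀ o, c ∣ θ T o - θ T' o := by
  obtain ⟨r, hr⟩ := hq
  have hr' : q ^ (r + 1) = 0 := by rw [pow_succ, hr, zero_mul]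
  obtain ⟨ρ, h1, h2⟩ := exp_exists res hs e he hk r
  let L : (E →ₐ[k] C) → (AdjoinRoot (X ^ (r + 1) : E[X]) →ₐ[k] C) := fun T =>
    AdjoinRoot.liftAlgHom _ T q (by rw [eval₂_X_pow, hr'])
  have hLr : ∀ T, L T (AdjoinRoot.root _) = q := fun T => AdjoinRoot.liftAlgHom_root ..
  have hLo : ∀ T x, L T (AdjoinRoot.of _ x) = T x := fun T x => AdjoinRoot.liftAlgHom_of ..
  refine ⟨fun T => (L T).comp (ρ.restrictScalars k), fun T => ⟨?_, fun o => ?_, fun a => ?_,
    fun T' c hc o => ?_⟩⟩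
  · exact (congrArg (L T) h1).trans (hLr T)
  · have := map_dvd (L T) (h2 o)
    rwa [hLr, map_sub, hLo] at this
  · exact (congrArg (L T) (ρ.commutes a)).trans (hLo T _)
  · change c ∣ L T (ρ o) - L T' (ρ o)
    obtain ⟨g, hg⟩ := AdjoinRoot.mk_surjective (ρ o)
    rw [← hg]
    change c ∣ eval₂ (T : E →+* C) q g - eval₂ (T' : E →+* C) q g
    clear hg
    induction g using Polynomial.induction_on' with
    | add g g' ih ih' =>
      rw [eval₂_add, eval₂_add, add_sub_add_comm]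
      exact dvd_add ih ih'
    | monomial n a =>
      rw [eval₂_monomial, eval₂_monomial, ← sub_mul]
      exact (hc a).mul_right _

end Pool.Agent.MP_d395f7_lc.H9
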