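import Mathlib

/-! Small lemmas on Laurent polynomials, fixed points and extension to fraction fields. -/

namespace Pool.Agent.MP_d395f7_lc.H9

open Polynomial LaurentPolynomial

theorem coeff_toL_nat {B : Type*} [CommRing B] (f : B[X]) (n : ℕ) :
    (toLaurent f).coeff (n : ℤ) = f.coeff n := by
  induction f using Polynomial.induction_on' with
  | add f g hf hg =>
    rw [map_add, AddMonoidAlgebra.coeff_add, Finsupp.add_apply, hf, hg, coeff_add]
  | monomial m a =>
    rw [toLaurent_C_mul_T, ← single_eq_C_mul_T, coeff_monomial]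
    simp [Finsupp.single_apply, -single_eq_C_mul_T]

theorem coeff_toL_neg {B : Type*} [CommRing B] (f : B[X]) (n : ℤ) (hn : n < 0) :
    (toLaurent f).coeff n = 0 := by
  induction f using Polynomial.induction_on' with
  | add f g hf hg =>
    rw [map_add, AddMonoidAlgebra.coeff_add, Finsupp.add_apply, hf, hg, add_zero]
  | monomial m a =>
    rw [toLaurent_C_mul_T, ← single_eq_C_mul_T]
    have : (m : ℤ) ≠ n := by omega
    simp [this, -single_eq_C_mul_T]

theorem coeff_mul_T {B : Type*} [CommRing B] (f : B[T;T⁻¹]) (m n : ℤ) :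
    (f * T m).coeff n = f.coeff (n - m) := by
  rw [T, AddMonoidAlgebra.coeff_mul_single_apply, mul_one, sub_eq_add_neg]

theorem coeff_inn {B : Type*} [CommRing B] {η W : B[X]} {M : ℕ}
    (h : invert (toLaurent η) * T M = toLaurent W) (n : ℕ) :
    η.coeff n = if n ≤ M then W.coeff (M - n) else 0 := by
  have h1 := congrArg (fun f : B[T;T⁻¹] => f.coeff ((M : ℤ) - n)) h
  simp only [coeff_mul_T, invert_apply] at h1
  have h2 : -((M : ℤ) - n - M) = n := by ring
  rw [h2, coeff_toL_nat] at h1
  rw [h1]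
  split_ifs with hn
  · rw [← coeff_toL_nat, Nat.cast_sub hn]
  · exact coeff_toL_neg _ _ (by omega)

theorem exists_inn {B : Type*} [CommRing B] (W : B[X]) (M : ℕ) (h : W.natDegree ≤ M) :
    ∃ η : B[X], invert (toLaurent η) * T M = toLaurent W := by
  refine ⟨∑ i ∈ Finset.range (M + 1), monomial (M - i) (W.coeff i), ?_⟩
  conv_rhs => rw [W.as_sum_range' (M + 1) (Nat.lt_succ_of_le h)]
  rw [map_sum, map_sum, map_sum, Finset.sum_mul]
  refine Finset.sum_congr rfl fun i hi => ?_
  have hi' : i ≤ M := Nat.lt_succ_iff.mp (Finset.mem_range.mp hi)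
  rw [toLaurent_C_mul_T, toLaurent_C_mul_T, map_mul, invert_C, invert_T, mul_T_assoc,
    Nat.cast_sub hi']
  congr 2
  ring

theorem coeff_iter_divX {B : Type*} [CommRing B] (m : ℕ) (f : B[X]) (n : ℕ) :
    (divX^[m] f).coeff n = f.coeff (n + m) := by
  induction m generalizing n with
  | zero => rfl
  | succ m ih => rw [Function.iterate_succ_apply', coeff_divX, ih, add_assoc, add_comm 1 m]

theorem iter_divX_dvd {B : Type*} [CommRing B] (m : ℕ) (f g : B[X]) (c : B)
    (h : Polynomial.C c ∣ f - g) : Polynomial.C c ∣ divX^[m] f - divX^[m] g := by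
  rw [C_dvd_iff_dvd_coeff] at h ⊢
  intro i
  have := h (i + m)
  rwa [coeff_sub, ← coeff_iter_divX, ← coeff_iter_divX, ← coeff_sub] at this

theorem natDegree_lo {B : Type*} [CommRing B] (M : ℕ) (f : B[X]) :
    (f - X ^ (M + 1) * divX^[M + 1] f).natDegree ≤ M := by
  rw [natDegree_le_iff_coeff_eq_zero]
  intro n hn
  rw [coeff_sub, coeff_X_pow_mul', if_pos (by omega), coeff_iter_divX,
    Nat.sub_add_cancel (by omega), sub_self]

theorem fixed_point {s A : Type*} [CommRing A] (q : A) (hq : IsNilpotent q)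
    (Φ : (s → A) → s → A)
    (h : ∀ (l : ℕ) (x y : s → A), (∀ b, q ^ l ∣ x b - y b) → ∀ b, q ^ (l + 1) ∣ Φ x b - Φ y b) :
    ∃ x, Φ x = x := by
  have : ∀ l : ℕ, ∀ b, q ^ l ∣ Φ^[l + 1] 0 b - Φ^[l] 0 b := by
    intro l
    induction l with
    | zero => simp
    | succ l ih =>
      rw [Function.iterate_succ_apply' Φ (l + 1), Function.iterate_succ_apply' Φ l] at *
      exact h l _ _ ih
  obtain ⟨r, hr⟩ := hq
  refine ⟨Φ^[r] 0, funext fun b => ?_⟩
  have := this r b
  rwa [hr, zero_dvd_iff, sub_eq_zero, Function.iterate_succ_apply'] at this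

theorem aeval_dvd {k ι A : Type*} [CommRing k] [CommRing A] [Algebra k A] (c : A)
    (y z : ι → A) (h : ∀ j, c ∣ y j - z j) (Q : MvPolynomial ι k) :
    c ∣ MvPolynomial.aeval y Q - MvPolynomial.aeval z Q := by
  induction Q using MvPolynomial.induction_on with
  | C a => simp
  | add f g hf hg =>
    rw [map_add, map_add, add_sub_add_comm]
    exact dvd_add hf hg
  | mul_X f j hf =>
    simp only [map_mul, MvPolynomial.aeval_X]
    have : MvPolynomial.aeval y f * y j - MvPolynomial.aeval z f * z j =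
        (MvPolynomial.aeval y f - MvPolynomial.aeval z f) * y j +
          MvPolynomial.aeval z f * (y j - z j) := by ring
    rw [this]
    exact dvd_add (hf.mul_right _) ((h j).mul_left _)

theorem isFrac_of_gen {k F ι : Type*} [Field k] [Field F] [Algebra k F] (g : ι → F)
    (hg : ∀ a : F, ∃ Q₁ Q₂ : MvPolynomial ι k,
      a = MvPolynomial.aeval g Q₁ / MvPolynomial.aeval g Q₂) :
    IsFractionRing (Algebra.adjoin k (Set.range g)) F := by
  refine IsFractionRing.of_field _ _ fun a => ?_
  obtain ⟨Q₁, Q₂, h⟩ := hg a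
  have hm : ∀ Q : MvPolynomial ι k, MvPolynomial.aeval g Q ∈ Algebra.adjoin k (Set.range g) := by
    intro Q
    rw [Algebra.adjoin_range_eq_range_aeval]
    exact ⟨Q, rfl⟩
  exact ⟨⟨_, hm Q₁⟩, ⟨_, hm Q₂⟩, h⟩

/-- A deformation of the generators which respects the relations extends to the field. -/
theorem ext_hom {k F ι A : Type*} [Field k] [Field F] [Algebra k F] [CommRing A] [Algebra k A]
    (g : ι → F) (hg : ∀ a : F, ∃ Q₁ Q₂ : MvPolynomial ι k,
      a = MvPolynomial.aeval g Q₁ / MvPolynomial.aeval g Q₂)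
    (b0 : F →ₐ[k] A) (q : A) (hq : IsNilpotent q) (Y : ι → A) (hY : ∀ j, q ∣ Y j - b0 (g j))
    (hrel : ∀ Q : MvPolynomial ι k, MvPolynomial.aeval g Q = 0 → MvPolynomial.aeval Y Q = 0) :
    ∃ U : F →ₐ[k] A, (∀ j, U (g j) = Y j) ∧ ∀ a, q ∣ U a - b0 a := by
  have hP : IsFractionRing (MvPolynomial.aeval (R := k) g).range F := by
    rw [← Algebra.adjoin_range_eq_range_aeval]
    exact isFrac_of_gen g hg
  have hd : ∀ Q : MvPolynomial ι k,
      q ∣ MvPolynomial.aeval Y Q - b0 (MvPolynomial.aeval g Q) := by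
    intro Q
    have := aeval_dvd q Y (fun j => b0 (g j)) hY Q
    rwa [← MvPolynomial.comp_aeval_apply] at this
  let φ := (MvPolynomial.aeval (R := k) g).rangeRestrict
  have hφ : Function.Surjective φ := AlgHom.rangeRestrict_surjective _
  let u : (MvPolynomial.aeval (R := k) g).range →ₐ[k] A :=
    AlgHom.liftOfSurjective φ hφ (MvPolynomial.aeval Y) fun Q hQ =>
      hrel Q (congrArg Subtype.val (RingHom.mem_ker.mp hQ))
  have hu : ∀ Q, u (φ Q) = MvPolynomial.aeval Y Q := fun Q =>
    AlgHom.liftOfSurjective_apply ..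
  have hd' : ∀ y : (MvPolynomial.aeval (R := k) g).range, q ∣ u y - b0 y := by
    intro y
    obtain ⟨Q, rfl⟩ := hφ y
    rw [hu]
    exact hd Q
  have hunit : ∀ y : nonZeroDivisors (MvPolynomial.aeval (R := k) g).range, IsUnit (u y) := by
    rintro ⟨y, hy⟩
    have h0 : (y : F) ≠ 0 := fun h => nonZeroDivisors.ne_zero hy (Subtype.ext h)
    obtain ⟨c, hc⟩ := hd' y
    have : u y = q * c + b0 y := by rw [← hc]; ring
    change IsUnit (u y)
    rw [this]
    exact ((Commute.all q c).isNilpotent_mul_right hq).isUnit_add_right_of_commute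
      ((IsUnit.mk0 _ h0).map b0) (Commute.all _ _)
  let U : F →ₐ[k] A := IsLocalization.liftAlgHom hunit
  have hU : ∀ y : (MvPolynomial.aeval (R := k) g).range, U y = u y := fun y =>
    IsLocalization.lift_eq hunit y
  refine ⟨U, fun j => ?_, fun a => ?_⟩
  · have := hU (φ (MvPolynomial.X j))
    rw [hu, MvPolynomial.aeval_X] at this
    rw [← this]
    congr 1
    exact (MvPolynomial.aeval_X g j).symm
  · have : (Ideal.Quotient.mk (Ideal.span {q})).comp (U : F →+* A) =
        (Ideal.Quotient.mk (Ideal.span {q})).comp (b0 : F →+* A) := by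
      apply IsLocalization.ringHom_ext (nonZeroDivisors (MvPolynomial.aeval (R := k) g).range)
      ext y
      refine Ideal.Quotient.eq.mpr (Ideal.mem_span_singleton.mpr ?_)
      have := hd' y
      rwa [← hU] at this
    exact Ideal.mem_span_singleton.mp (Ideal.Quotient.eq.mp (RingHom.congr_fun this a))

end Pool.Agent.MP_d395f7_lc.H9
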