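import Mathlib

/-! Lifting of homomorphisms out of a field of characteristic zero along nilpotent ideals,
with prescribed values on a transcendence basis. -/

namespace Pool.Agent.MP_d395f7_lc.H9

open scoped IntermediateField.algebraAdjoinAdjoin in
theorem etale_of_basis {k E ι : Type*} [Field k] [CharZero k] [Field E] [Algebra k E]
    {b : ι → E} (hb : IsTranscendenceBasis k b) :
    Algebra.FormallyEtale (Algebra.adjoin k (Set.range b)) E := by
  have h1 : Algebra.FormallyEtale (Algebra.adjoin k (Set.range b))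
      (IntermediateField.adjoin k (Set.range b)) :=
    .of_isLocalization (nonZeroDivisors _)
  have h2 : Algebra.IsAlgebraic (IntermediateField.adjoin k (Set.range b)) E :=
    hb.isAlgebraic_field
  have : CharZero (IntermediateField.adjoin k (Set.range b)) :=
    algebraRat.charZero _
  have h3 : Algebra.FormallyEtale (IntermediateField.adjoin k (Set.range b)) E :=
    Algebra.FormallyEtale.of_isSeparable _ E
  exact .comp _ (IntermediateField.adjoin k (Set.range b)) _

theorem lift_unique {k E ι A : Type*} [Field k] [CharZero k] [Field E] [Algebra k E]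
    [CommRing A] [Algebra k A] {b : ι → E} (hb : IsTranscendenceBasis k b)
    (I : Ideal A) (hI : IsNilpotent I) (f g : E →ₐ[k] A) (h0 : ∀ x, f x - g x ∈ I)
    (h1 : ∀ i, f (b i) = g (b i)) : f = g := by
  have := etale_of_basis hb
  set P := Algebra.adjoin k (Set.range b) with hP
  have hfg : ∀ x : P, f x = g x := by
    intro x
    have : (f.comp P.val) = (g.comp P.val) := by
      apply AlgHom.ext_of_eq_adjoin hP
      rintro _ ⟨i, rfl⟩
      exact h1 i
    exact AlgHom.congr_fun this x
  let : Algebra P A := (f.comp P.val).toRingHom.toAlgebra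
  let f' : E →ₐ[P] A := { f.toRingHom with commutes' := fun x => rfl }
  let g' : E →ₐ[P] A := { g.toRingHom with commutes' := fun x => (hfg x).symm }
  have : f' = g' := Algebra.FormallyUnramified.ext I hI fun x => Ideal.Quotient.eq.mpr (h0 x)
  ext x
  exact AlgHom.congr_fun this x

theorem lift_exists {k E ι A : Type*} [Field k] [CharZero k] [Field E] [Algebra k E]
    [CommRing A] [Algebra k A] {b : ι → E} (hb : IsTranscendenceBasis k b)
    (I : Ideal A) (hI : IsNilpotent I) (f0 : E →ₐ[k] A ⧸ I) (a : ι → A)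
    (ha : ∀ i, Ideal.Quotient.mk I (a i) = f0 (b i)) :
    ∃ f : E →ₐ[k] A, (∀ x, Ideal.Quotient.mk I (f x) = f0 x) ∧ ∀ i, f (b i) = a i := by
  have := etale_of_basis hb
  set P := Algebra.adjoin k (Set.range b) with hP
  let u : P →ₐ[k] A := (MvPolynomial.aeval a).comp hb.1.aevalEquiv.symm.toAlgHom
  have hu : ∀ i, u ⟨b i, Algebra.subset_adjoin ⟨i, rfl⟩⟩ = a i := by
    intro i
    have : hb.1.aevalEquiv (MvPolynomial.X i) = ⟨b i, Algebra.subset_adjoin ⟨i, rfl⟩⟩ := by
      ext
      simp
    simp only [u, AlgHom.comp_apply, ← this]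
    simp
  have hc : ∀ x : P, f0 x = Ideal.Quotient.mk I (u x) := by
    intro x
    have : (f0.comp P.val) = (Ideal.Quotient.mkₐ k I).comp u := by
      apply AlgHom.ext_of_eq_adjoin hP
      rintro _ ⟨i, rfl⟩
      have := hu i
      simp only [AlgHom.comp_apply, Ideal.Quotient.mkₐ_eq_mk]
      rw [this, ha]
      rfl
    exact AlgHom.congr_fun this x
  let : Algebra P A := u.toRingHom.toAlgebra
  let f0' : E →ₐ[P] A ⧸ I := { f0.toRingHom with commutes' := fun x => hc x }
  obtain ⟨f, hf⟩ := Algebra.FormallySmooth.exists_lift I hI f0'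
  have hfx : ∀ x : P, f x = u x := fun x => f.commutes x
  refine ⟨{ f.toRingHom with commutes' := fun c => ?_ }, fun x => AlgHom.congr_fun hf x,
    fun i => ?_⟩
  · have := hfx (algebraMap k P c)
    rw [u.commutes] at this
    exact this
  · exact (hfx ⟨b i, Algebra.subset_adjoin ⟨i, rfl⟩⟩).trans (hu i)

/-- Version with a base homomorphism into the ring itself. -/
theorem lift_exists' {k E ι A : Type*} [Field k] [CharZero k] [Field E] [Algebra k E]
    [CommRing A] [Algebra k A] {b : ι → E} (hb : IsTranscendenceBasis k b)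
    (I : Ideal A) (hI : IsNilpotent I) (f0 : E →ₐ[k] A) (a : ι → A)
    (ha : ∀ i, a i - f0 (b i) ∈ I) :
    ∃ f : E →ₐ[k] A, (∀ x, f x - f0 x ∈ I) ∧ ∀ i, f (b i) = a i := by
  obtain ⟨f, h1, h2⟩ := lift_exists hb I hI ((Ideal.Quotient.mkₐ k I).comp f0) a
    fun i => Ideal.Quotient.eq.mpr (ha i)
  exact ⟨f, fun x => Ideal.Quotient.eq.mp (h1 x), h2⟩

/-- Lipschitz property. -/
theorem lift_congr {k E ι A : Type*} [Field k] [CharZero k] [Field E] [Algebra k E]
    [CommRing A] [Algebra k A] {b : ι → E} (hb : IsTranscendenceBasis k b)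
    (p q : A) (hp : IsNilpotent p) (f g : E →ₐ[k] A) (h0 : ∀ x, p ∣ f x - g x)
    (h1 : ∀ i, q ∣ f (b i) - g (b i)) (x : E) : q ∣ f x - g x := by
  set J : Ideal A := Ideal.span {q} with hJ
  have hn : IsNilpotent (Ideal.span {Ideal.Quotient.mk J p}) := by
    obtain ⟨n, hn⟩ := hp
    refine ⟨n, ?_⟩
    rw [Ideal.span_singleton_pow, ← map_pow, hn, map_zero]
    simp
  have := lift_unique hb _ hn ((Ideal.Quotient.mkₐ k J).comp f) ((Ideal.Quotient.mkₐ k J).comp g)
    (fun x => by
      rw [Ideal.mem_span_singleton]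
      simp only [AlgHom.comp_apply, Ideal.Quotient.mkₐ_eq_mk, ← map_sub]
      exact map_dvd _ (h0 x))
    (fun i => Ideal.Quotient.eq.mpr (Ideal.mem_span_singleton.mpr (h1 i)))
  exact Ideal.mem_span_singleton.mp (Ideal.Quotient.eq.mp (AlgHom.congr_fun this x))

end Pool.Agent.MP_d395f7_lc.H9
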