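import Mathlib
import Pool.Agent.MP_d395f7_lc.H9.Lift
import Pool.Agent.MP_d395f7_lc.H9.Laur

/-! The patching step. -/

namespace Pool.Agent.MP_d395f7_lc.H9

open Polynomial LaurentPolynomial

theorem nil_span {A : Type*} [CommRing A] {q : A} (hq : IsNilpotent q) :
    IsNilpotent (Ideal.span {q}) := by
  obtain ⟨n, hn⟩ := hq
  refine ⟨n, ?_⟩
  rw [Ideal.span_singleton_pow, hn]
  simp

theorem exists_T {k E σ s B : Type*} [Field k] [CharZero k] [Field E] [Algebra k E]
    [CommRing B] [Algebra k B] {c : σ → E} {b : s → E}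
    (hb : IsTranscendenceBasis k (Sum.elim c b)) (inc : E →ₐ[k] B) (p : B) (hp : IsNilpotent p)
    (M : ℕ) (H : (E →ₐ[k] B[X]) → s → B[X])
    (hH : ∀ (T T' : E →ₐ[k] B[X]) (a : B[X]), (∀ x, a ∣ T x - T' x) →
      ∀ i, a ∣ H T i - H T' i) :
    ∃ T : E →ₐ[k] B[X], (∀ x, Polynomial.C p * X ∣ T x - Polynomial.C (inc x)) ∧
      ∀ i, ∃ z : B[X], z.natDegree ≤ M ∧ X ^ M * T (b i) + Polynomial.C p * H T i =
        X ^ M * Polynomial.C (inc (b i)) + Polynomial.C p * z := by
  have hp1 : IsNilpotent (Polynomial.C p : B[X]) := hp.map _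
  have hp2 : IsNilpotent (Polynomial.C p * X : B[X]) :=
    (Commute.all _ _).isNilpotent_mul_right hp1
  have hT : ∀ ξ : s → B[X], ∃ T : E →ₐ[k] B[X],
      (∀ x, Polynomial.C p * X ∣ T x - Polynomial.C (inc x)) ∧
      (∀ i, T (c i) = Polynomial.C (inc (c i))) ∧
      ∀ i, T (b i) = Polynomial.C (inc (b i)) + Polynomial.C p * X * ξ i := by
    intro ξ
    obtain ⟨T, h1, h2⟩ := lift_exists' hb _ (nil_span hp2) (CAlgHom.comp inc)
      (Sum.elim (fun i => Polynomial.C (inc (c i)))
        (fun i => Polynomial.C (inc (b i)) + Polynomial.C p * X * ξ i)) (by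
        rintro (i | i)
        · exact (sub_self (Polynomial.C (inc (c i)))).symm ▸ Ideal.zero_mem _
        · refine Ideal.mem_span_singleton.mpr ⟨ξ i, ?_⟩
          exact add_sub_cancel_left _ _)
    exact ⟨T, fun x => Ideal.mem_span_singleton.mp (h1 x), fun i => h2 (Sum.inl i),
      fun i => h2 (Sum.inr i)⟩
  choose T hT0 hTc hTb using hT
  obtain ⟨ξ, hξ⟩ := fixed_point (Polynomial.C p : B[X]) hp1
    (fun ξ i => -divX^[M + 1] (H (T ξ) i)) (by
      intro l x y hxy i
      have h1 : ∀ a, Polynomial.C p ^ (l + 1) ∣ T x a - T y a := by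
        refine lift_congr hb _ _ hp2 _ _ (fun a => ?_) ?_
        · have := dvd_sub (hT0 x a) (hT0 y a)
          rwa [sub_sub_sub_cancel_right] at this
        · rintro (i | i)
          · simp [hTc]
          · obtain ⟨z, hz⟩ := hxy i
            refine ⟨X * z, ?_⟩
            simp only [Sum.elim_inr, hTb]
            linear_combination (Polynomial.C p * X) * hz
      have h2 := hH _ _ _ h1 i
      rw [← map_pow] at h2 ⊢
      have h3 := iter_divX_dvd (M + 1) _ _ _ h2
      rw [neg_sub_neg, ← neg_sub, dvd_neg]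
      exact h3)
  refine ⟨T ξ, hT0 ξ, fun i => ⟨_, natDegree_lo M (H (T ξ) i), ?_⟩⟩
  have : -divX^[M + 1] (H (T ξ) i) = ξ i := congrFun hξ i
  rw [hTb]
  linear_combination (-(Polynomial.C p * X ^ (M + 1))) * this

theorem theta_eval {k O B : Type*} [CommRing k] [CommRing O] [CommRing B] [Algebra k O]
    [Algebra k B] (τ : O →ₐ[k] B[X]) (p : B) (lam N : ℕ) (R : O[X]) (hN : R.natDegree < N) :
    aevalTower (((toLaurentAlg (R := B)).restrictScalars k).comp τ)
        (LaurentPolynomial.C p * T (-(lam : ℤ))) (X * R) * T ((lam * N : ℕ) : ℤ) =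
      toLaurent (Polynomial.C p * ∑ i ∈ Finset.range N,
        Polynomial.C (p ^ i) * X ^ (lam * (N - 1 - i)) * τ (R.coeff i)) := by
  conv_lhs => rw [R.as_sum_range' N hN]
  simp only [map_mul, map_sum, Finset.mul_sum, Finset.sum_mul]
  refine Finset.sum_congr rfl fun i hi => ?_
  have hi' : i < N := Finset.mem_range.mp hi
  rw [← C_mul_X_pow_eq_monomial]
  simp only [map_mul, map_pow, aevalTower_X, aevalTower_C, AlgHom.comp_apply,
    AlgHom.restrictScalars_apply, toLaurentAlg_apply, toLaurent_C, toLaurent_X, mul_pow,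
    T_pow]
  have : (T ((lam * (N - 1 - i) : ℕ) * 1 : ℤ) : B[T;T⁻¹]) =
      T (-(lam : ℤ)) * T (i * -(lam : ℤ)) * T ((lam * N : ℕ) : ℤ) := by
    rw [← T_add, ← T_add]
    congr 1
    obtain ⟨m, rfl⟩ := Nat.exists_eq_add_of_lt hi'
    have : i + m + 1 - 1 - i = m := by omega
    rw [this]
    push_cast
    ring
  rw [this]
  ring

theorem patch {k F O E B ι : Type*} [Field k] [CharZero k] [Field F] [CommRing O] [Field E]
    [Algebra k F] [Algebra k O] [Algebra k E] [Algebra F O] [Algebra F E]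
    [IsScalarTower k F E] [CommRing B] [Algebra k B]
    (inc : E →ₐ[k] B) (p : B) (hp : IsNilpotent p) (g : ι → F)
    (hg : ∀ a : F, ∃ Q₁ Q₂ : MvPolynomial ι k,
      a = MvPolynomial.aeval g Q₁ / MvPolynomial.aeval g Q₂)
    (θ : (E →ₐ[k] B[X]) → (O →ₐ[k] B[X]))
    (h1 : ∀ T (a : F), θ T (algebraMap F O a) = T (algebraMap F E a))
    (h2 : ∀ (T T' : E →ₐ[k] B[X]) (c : B[X]), (∀ x, c ∣ T x - T' x) →
      ∀ o, c ∣ θ T o - θ T' o)
    (N lam : ℕ) (R : ι → O[X]) (hN : ∀ j, (R j).natDegree < N)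
    (hrel : ∀ Q : MvPolynomial ι k, MvPolynomial.aeval g Q = 0 →
      MvPolynomial.aeval (fun j => Polynomial.C (algebraMap F O (g j)) + X * R j) Q = 0) :
    ∃ (U : E →ₐ[k] B[X]) (S : F →ₐ[k] B[X]), (∀ x, (U x).coeff 0 = inc x) ∧
      ∀ j, invert (toLaurent (S (g j))) * T ((lam * N : ℕ) : ℤ) =
        toLaurent (X ^ (lam * N) * U (algebraMap F E (g j)) +
          Polynomial.C p * ∑ i ∈ Finset.range N,
            Polynomial.C (p ^ i) * X ^ (lam * (N - 1 - i)) * θ U ((R j).coeff i)) := by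
  have hfr := isFrac_of_gen g hg
  have halg : Algebra.IsAlgebraic (Algebra.adjoin k (Set.range g)) F :=
    IsLocalization.isAlgebraic F (nonZeroDivisors _)
  obtain ⟨s, hsub, hs⟩ := exists_isTranscendenceBasis_subset (R := k) (Set.range g)
  obtain ⟨c, hc⟩ := exists_isTranscendenceBasis F E
  have hb := hs.sumElim_comp hc
  choose sel hsel using fun b : s => hsub b.2
  set H : (E →ₐ[k] B[X]) → ι → B[X] := fun U j => ∑ i ∈ Finset.range N,
    Polynomial.C (p ^ i) * X ^ (lam * (N - 1 - i)) * θ U ((R j).coeff i) with hH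
  obtain ⟨U, hU0, hU⟩ := exists_T hb inc p hp (lam * N) (fun U b => H U (sel b)) (by
    intro U U' a ha b
    simp only [hH]
    rw [← Finset.sum_sub_distrib]
    refine Finset.dvd_sum fun i _ => ?_
    rw [← mul_sub]
    exact (h2 U U' a ha _).mul_left _)
  choose z hz hzU using hU
  choose η hη using fun b => exists_inn (z b) _ (hz b)
  let toL : B[X] →ₐ[k] B[T;T⁻¹] := (toLaurentAlg (R := B)).restrictScalars k
  let inn : B[X] →ₐ[k] B[T;T⁻¹] := ((invert (R := B)).toAlgHom.restrictScalars k).comp toL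
  have hinn : ∀ f, inn f = invert (toLaurent f) := fun _ => rfl
  let Θ : O[X] →ₐ[k] B[T;T⁻¹] :=
    aevalTower (toL.comp (θ U)) (LaurentPolynomial.C p * T (-(lam : ℤ)))
  let Y : ι → B[T;T⁻¹] := fun j => Θ (Polynomial.C (algebraMap F O (g j)) + X * R j)
  have hY : ∀ j, Y j = toLaurent (U (algebraMap F E (g j))) + Θ (X * R j) := by
    intro j
    simp only [Y, Θ, map_add, aevalTower_C, AlgHom.comp_apply, h1]
    rfl
  have hYT : ∀ j, Y j * T ((lam * N : ℕ) : ℤ) =
      toLaurent (X ^ (lam * N) * U (algebraMap F E (g j)) + Polynomial.C p * H U j) := by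
    intro j
    rw [hY, add_mul, map_add, theta_eval (θ U) p lam N (R j) (hN j), map_mul (f := toLaurent)
      (X ^ _), toLaurent_X_pow, mul_comm (T _)]
  let f0 : F →ₐ[k] B[X] := (CAlgHom.comp inc).comp (IsScalarTower.toAlgHom k F E)
  have hf0 : ∀ a, f0 a = Polynomial.C (inc (algebraMap F E a)) := fun _ => rfl
  have hp1 : IsNilpotent (Polynomial.C p : B[X]) := hp.map _
  have hp2 : IsNilpotent (LaurentPolynomial.C p : B[T;T⁻¹]) := hp.map _
  obtain ⟨V, hV, hV0⟩ := ext_hom g hg (toL.comp f0) _ hp2 Y (by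
    intro j
    rw [hY, add_sub_right_comm]
    refine dvd_add ?_ ?_
    · have := map_dvd toLaurent ((dvd_mul_right _ _).trans (hU0 (algebraMap F E (g j))))
      rwa [map_sub, toLaurent_C] at this
    · simp only [Θ, map_mul, aevalTower_X]
      exact (dvd_mul_right _ _).mul_right _) (by
    intro Q hQ
    have := congrArg Θ (hrel Q hQ)
    rwa [MvPolynomial.comp_aeval_apply, map_zero] at this)
  obtain ⟨S, hS0, hS⟩ := lift_exists' hs _ (nil_span hp1) f0
    (fun b => f0 b + Polynomial.C p * η b) fun b =>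
      Ideal.mem_span_singleton.mpr ⟨η b, add_sub_cancel_left _ _⟩
  have hSV : inn.comp S = V := by
    refine lift_unique hs _ (nil_span hp2) _ _ (fun a => Ideal.mem_span_singleton.mpr ?_)
      fun b => ?_
    · have h3 := map_dvd inn (Ideal.mem_span_singleton.mp (hS0 a))
      have h4 := hV0 a
      rw [map_sub, hinn, hinn (f0 a), hf0, toLaurent_C, toLaurent_C, invert_C, invert_C] at h3
      have h5 : (toL.comp f0) a = LaurentPolynomial.C (inc (algebraMap F E a)) :=
        toLaurent_C _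
      rw [h5] at h4
      have := dvd_sub h3 h4
      rwa [sub_sub_sub_cancel_right] at this
    · refine (isUnit_T ((lam * N : ℕ) : ℤ)).mul_right_cancel ?_
      have h3 : V b = Y (sel b) := by rw [← hV, hsel]
      rw [h3, hYT, hsel, AlgHom.comp_apply, hS, hinn]
      have h4 := hzU b
      simp only [Function.comp_apply] at h4
      rw [h4, hf0]
      simp only [map_add, map_mul, toLaurent_C, invert_C, toLaurent_X_pow, add_mul]
      rw [mul_assoc, hη, mul_comm (T _)]
  refine ⟨U, S, fun x => ?_, fun j => ?_⟩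
  · have := X_dvd_iff.mp ((dvd_mul_left _ _).trans (hU0 x))
    rwa [coeff_sub, coeff_C_zero, sub_eq_zero] at this
  · rw [← hYT, ← hV, ← hSV, AlgHom.comp_apply, hinn]

end Pool.Agent.MP_d395f7_lc.H9
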