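import Mathlib
import Pool.Agent.MP_d395f7_lc.H9.Spec
import Pool.Agent.MP_d395f7_lc.H9.Exp
import Pool.Agent.MP_d395f7_lc.H9.Patch

/-! Steps 2 to 4: polynomial arcs of bounded degree over nilpotent thickenings. -/

namespace Pool.Agent.MP_d395f7_lc.H9

open Polynomial

theorem coeff_lt_zero {B : Type*} [CommRing B] (a n : ℕ) (f : B[X]) (h : n < a) :
    (X ^ a * f).coeff n = 0 := by
  rw [coeff_X_pow_mul', if_neg (by omega)]

theorem levelS : LevelS := by
  intro k _ _ ι j0 P D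
  have : CharZero P.F := charZero_of_injective_algebraMap (algebraMap k P.F).injective
  obtain ⟨κ, hκ⟩ : ∃ κ, κ = P.N + D + 1 := ⟨_, rfl⟩
  obtain ⟨lam, hlam⟩ : ∃ lam, lam = 1 + κ * P.J := ⟨_, rfl⟩
  have hN1 : 0 < P.N := Nat.zero_lt_of_lt P.hi0
  have hn0 : D < P.i0 + 1 + κ * P.h := by
    have := P.h1
    nlinarith
  refine ⟨lam * P.N, P.i0 + 1 + κ * P.h, P.i0 + 1 + (P.J * (P.i0 + 1) - P.h), P.J + 1,
    P.res (P.φ P.i0), fun h => P.hu ((P.hk _).mp h), hn0, ?_⟩
  intro B _ _ inc p hp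
  have hq : IsNilpotent (C p * X ^ κ : B[X]) :=
    (Commute.all _ _).isNilpotent_mul_right (hp.map _)
  obtain ⟨θ, hθ⟩ := theta_exists (k := k) P.res P.hs P.e P.he P.hk _ hq
  obtain ⟨U, S, hU, hS⟩ := patch inc p hp P.g P.hg θ (fun T => (hθ T).2.2.1)
    (fun T => (hθ T).2.2.2) P.N lam P.R P.hN P.hrel
  have he := (hθ U).1
  have hexp : ∀ i, i < P.N →
      lam * (P.N - 1 - i) + κ * (P.J * (i + 1) - P.h) + (i + 1 + κ * P.h) = lam * P.N := by
    intro i hi
    obtain ⟨m, hm⟩ := Nat.exists_eq_add_of_lt hi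
    have h1 : P.N - 1 - i = m := by omega
    have h2 : P.h ≤ P.J * (i + 1) := P.hJ.trans (Nat.le_mul_of_pos_right _ (by omega))
    obtain ⟨n, hn⟩ := Nat.exists_eq_add_of_le h2
    have h3 : P.J * (i + 1) - P.h = n := by omega
    rw [h1, h3, hm, hlam]
    have h4 : κ * (P.J * (i + 1)) = κ * (P.h + n) := by rw [hn]
    linarith
  refine ⟨S, (U (algebraMap P.F P.E (P.g none))).coeff 0, ?_, fun j => ?_, ?_⟩
  · obtain ⟨m, hm⟩ : ∃ m, m = lam * (P.N - 1) + κ * P.J := ⟨_, rfl⟩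
    have hM : lam * P.N = m + 1 := by
      obtain ⟨n, hn⟩ := Nat.exists_eq_add_of_lt hN1
      have h1 : P.N - 1 = n := by omega
      rw [hm, h1, hn, hlam]
      ring
    have h1 := hS none
    rw [Finset.sum_eq_single 0 (fun i _ hi => by rw [P.hRt, coeff_C_of_ne_zero hi]; simp)
      (fun h => absurd (Finset.mem_range.mpr hN1) h), P.hRt, coeff_C_zero, map_pow (θ U), he]
      at h1
    have h2 : C p * (C (p ^ 0) * X ^ (lam * (P.N - 1 - 0)) * (C p * X ^ κ) ^ P.J) =
        (C (p ^ (P.J + 1)) * X ^ m : B[X]) := by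
      rw [hm, Nat.sub_zero]
      simp only [map_pow]
      ring
    rw [h2] at h1
    ext n
    rw [coeff_inn h1 n, hM]
    simp only [coeff_add, coeff_C_mul, coeff_X_pow_mul', coeff_X_pow, coeff_C, coeff_X]
    rcases n with _ | _ | n
    · simp
    · simp
    · have h3 : ¬ (m + 1 ≤ m + 1 - (n + 1 + 1)) := by omega
      by_cases h4 : n + 1 + 1 ≤ m + 1
      · have h5 : ¬ (m + 1 - (n + 1 + 1) = m) := by omega
        rw [if_pos h4, if_neg h3, if_neg h5]
        simp
      · simp [h4]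
  · rw [natDegree_le_iff_coeff_eq_zero]
    intro n hn
    rw [coeff_inn (hS j) n, if_neg (by omega)]
  · have h0 := hexp P.i0 P.hi0
    obtain ⟨a, ha⟩ : ∃ a, a = lam * (P.N - 1 - P.i0) + κ * (P.J * (P.i0 + 1) - P.h) := ⟨_, rfl⟩
    rw [← ha] at h0
    have hterm : ∀ i, C (p ^ i) * X ^ (lam * (P.N - 1 - i)) * θ U ((P.R (some j0)).coeff i) =
        C (p ^ (i + (P.J * (i + 1) - P.h))) *
          (X ^ (lam * (P.N - 1 - i) + κ * (P.J * (i + 1) - P.h)) * θ U (P.φ i)) := by
      intro i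
      rw [P.hφ, map_mul (θ U), map_pow (θ U), he]
      simp only [map_pow]
      ring
    rw [coeff_inn (hS (some j0)), if_pos (by omega), show lam * P.N - (P.i0 + 1 + κ * P.h) = a
      by omega, coeff_add, coeff_lt_zero _ _ _ (by omega), zero_add, coeff_C_mul,
      finsetSum_coeff, Finset.sum_eq_single P.i0]
    · rw [hterm, coeff_C_mul, ← ha]
      have h1 := coeff_X_pow_mul (θ U (P.φ P.i0)) a 0
      rw [zero_add] at h1
      have h2 : X ∣ θ U (P.φ P.i0) - U (P.res (P.φ P.i0)) :=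
        ((dvd_pow_self X (by omega)).mul_left _).trans ((hθ U).2.1 _)
      have h3 := X_dvd_iff.mp h2
      rw [coeff_sub, sub_eq_zero, hU] at h3
      rw [h1, h3]
      ring
    · intro i hi hne
      have hi' := Finset.mem_range.mp hi
      have h1 := hexp i hi'
      rw [hterm, coeff_C_mul]
      rcases lt_or_gt_of_ne hne with hlt | hgt
      · rw [coeff_lt_zero _ _ _ (by omega), mul_zero]
      · obtain ⟨ψ, hψ⟩ := P.hgt i hgt
        rw [hψ, map_mul (θ U), he]
        have h2 : ∀ (n : ℕ) (f : B[X]), X ^ n * (C p * X ^ κ * f) = X ^ (n + κ) * (C p * f) := by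
          intro n f
          ring
        rw [h2, coeff_lt_zero _ _ _ (by omega), mul_zero]
    · exact fun h => absurd (Finset.mem_range.mpr P.hi0) h

end Pool.Agent.MP_d395f7_lc.H9
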