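import Pool.Agent.MP_d395f7_lc.H9.Spec

/-! Step 5: passage to the limit over the nilpotent thickenings. -/

namespace Pool.Agent.MP_d395f7_lc.H9

open Polynomial

namespace Lim

/-- The polynomial with given coefficients. -/
noncomputable def gp {R : Type} [CommRing R] {N : ℕ} (w : Fin N → R) : R[X] :=
  ∑ n : Fin N, monomial n (w n)

theorem gp_coeff {R : Type} [CommRing R] {N : ℕ} (w : Fin N → R) (n : ℕ) :
    (gp w).coeff n = if h : n < N then w ⟨n, h⟩ else 0 := by
  rw [gp, finsetSum_coeff]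
  simp only [coeff_monomial]
  split_ifs with h
  · rw [Finset.sum_eq_single ⟨n, h⟩]
    · simp
    · intro b _ hb
      rw [if_neg fun e => hb (Fin.ext e)]
    · simp
  · exact Finset.sum_eq_zero fun b _ => if_neg fun (e : (b : ℕ) = n) => h (e ▸ b.2)

theorem gp_map {R S : Type} [CommRing R] [CommRing S] {N : ℕ} (w : Fin N → R) (f : R →+* S) :
    (gp w).map f = gp fun n => f (w n) := by
  ext n
  rw [coeff_map, gp_coeff, gp_coeff]
  split_ifs <;> simp

theorem gp_self {R : Type} [CommRing R] {N : ℕ} (q : R[X]) (h : q.natDegree < N) :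
    (gp fun n : Fin N => q.coeff n) = q := by
  ext n
  rw [gp_coeff]
  split_ifs with hn
  · rfl
  · exact (coeff_eq_zero_of_natDegree_lt (by omega)).symm

/-- The generic polynomials. -/
noncomputable def gen (k τ : Type) [Field k] (N : ℕ) (j : τ) : (MvPolynomial (τ × Fin N) k)[X] :=
  gp fun n => MvPolynomial.X (j, n)

theorem gen_coeff {k τ R : Type} [Field k] [CommRing R] [Algebra k R] {N : ℕ}
    (w : τ × Fin N → R) (Q : MvPolynomial τ k) (n : ℕ) :
    (MvPolynomial.aeval (fun j => gp fun m => w (j, m)) Q).coeff n =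
      MvPolynomial.aeval w ((MvPolynomial.aeval (gen k τ N) Q).coeff n) := by
  have h := MvPolynomial.comp_aeval_apply (f := gen k τ N)
    (mapAlgHom (MvPolynomial.aeval w : MvPolynomial (τ × Fin N) k →ₐ[k] R)) Q
  have e : (fun j => mapAlgHom (MvPolynomial.aeval w : MvPolynomial (τ × Fin N) k →ₐ[k] R)
      (gen k τ N j)) = fun j => gp fun m => w (j, m) := by
    funext j
    rw [coe_mapAlgHom, gen, gp_map]
    simp
  rw [e] at h
  rw [← h, coe_mapAlgHom, coeff_map]
  rfl

/-- The thickenings. -/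
abbrev B (E : Type) [Field E] (r : ℕ) : Type := AdjoinRoot (X ^ (r + 1) : E[X])

theorem root_nil (E : Type) [Field E] (r : ℕ) :
    IsNilpotent (AdjoinRoot.root (X ^ (r + 1) : E[X])) := by
  refine ⟨r + 1, ?_⟩
  rw [← AdjoinRoot.mk_X, ← map_pow, AdjoinRoot.mk_self]

theorem root_pow (E : Type) [Field E] (r : ℕ) :
    AdjoinRoot.root (X ^ (r + 1) : E[X]) ^ r ≠ 0 := by
  rw [← AdjoinRoot.mk_X, ← map_pow, Ne, AdjoinRoot.mk_eq_zero, X_pow_dvd_iff]
  intro h
  have := h r (Nat.lt_succ_self r)
  simp at this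

/-- The affine substitution. -/
theorem subst (k : Type) [Field k] [Algebra k ℂ] (a b : ℂ) (hb : b ≠ 0) :
    ∃ θ : ℂ[X] →ₐ[k] ℂ[X], θ (C a + C b * X) = X ∧ (∀ q, θ q = 0 → q = 0) ∧
      ∀ q, (θ q).natDegree = q.natDegree := by
  have hd : (C b⁻¹ * (X - C a) : ℂ[X]).natDegree = 1 := by
    rw [natDegree_C_mul (inv_ne_zero hb), natDegree_X_sub_C]
  refine ⟨(aeval (C b⁻¹ * (X - C a) : ℂ[X])).restrictScalars k, ?_, fun q hq => ?_, fun q => ?_⟩
  · simp only [AlgHom.restrictScalars_apply, map_add, map_mul, aeval_C, aeval_X, algebraMap_eq]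
    rw [← mul_assoc, ← C_mul, mul_inv_cancel₀ hb]
    simp
  · rw [AlgHom.restrictScalars_apply, ← comp_eq_aeval, comp_eq_zero_iff] at hq
    rcases hq with hq | ⟨-, hq⟩
    · exact hq
    · rw [hq, natDegree_C] at hd
      exact absurd hd zero_ne_one
  · rw [AlgHom.restrictScalars_apply, ← comp_eq_aeval, natDegree_comp, hd, mul_one]

end Lim

open Lim in
theorem limitS (h : EmbS) : LimitS := by
  intro k _ _ _ ι _ j0 F E _ _ _ _ g M n0 c0 c1 u hu hA
  choose S α hS1 hS2 hS3 using fun r : ℕ =>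
    hA (B E r) (IsScalarTower.toAlgHom k E (B E r)) _ (root_nil E r)
  let P : ∀ r, B E r := fun r => AdjoinRoot.root _
  have hP : ¬ IsNilpotent P := fun ⟨n, hn⟩ => root_pow E n (congrFun hn n)
  rw [nilpotent_iff_mem_prime] at hP
  push Not at hP
  obtain ⟨J, hJ, hPJ⟩ := hP
  let w : Option ι × Fin (M + n0 + 2) → ∀ r, B E r := fun s r => (S r (g s.1)).coeff s.2
  let π : (∀ r, B E r) →ₐ[k] (∀ r, B E r) ⧸ J := Ideal.Quotient.mkₐ k J
  have hπP : π P ≠ 0 := fun e => hPJ (Ideal.Quotient.eq_zero_iff_mem.1 e)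
  obtain ⟨c, hc⟩ := h k ((∀ r, B E r) ⧸ J) _ fun s => π (w s)
  have hc' : ∀ W, MvPolynomial.aeval c W = 0 ↔ π (MvPolynomial.aeval w W) = 0 := fun W => by
    rw [hc, MvPolynomial.comp_aeval_apply]
  have hcX : ∀ s, c s = 0 ↔ π (w s) = 0 := fun s => by
    simpa using hc' (MvPolynomial.X s)
  have hw : ∀ (Q : MvPolynomial (Option ι) k) (n r : ℕ),
      MvPolynomial.aeval w ((MvPolynomial.aeval (gen k (Option ι) (M + n0 + 2)) Q).coeff n) r =
        (S r (MvPolynomial.aeval g Q)).coeff n := by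
    intro Q n r
    have e1 := MvPolynomial.comp_aeval_apply (f := w) (Pi.evalAlgHom k (B E) r)
      ((MvPolynomial.aeval (gen k (Option ι) (M + n0 + 2)) Q).coeff n)
    rw [Pi.evalAlgHom_apply] at e1
    rw [e1, ← gen_coeff, MvPolynomial.comp_aeval_apply]
    congr 3
    funext j
    exact gp_self (N := M + n0 + 2) (S r (g j)) (by have := hS2 r j; omega)
  let y : Option ι → ℂ[X] := fun j => gp fun m => c (j, m)
  have hy : ∀ Q : MvPolynomial (Option ι) k,
      MvPolynomial.aeval y Q = 0 ↔ MvPolynomial.aeval g Q = 0 := by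
    intro Q
    constructor
    · intro h0
      by_contra hne
      have h1 : IsUnit (MvPolynomial.aeval w
          ((MvPolynomial.aeval (gen k (Option ι) (M + n0 + 2)) Q).coeff 0)) := by
        refine Pi.isUnit_iff.2 fun r => ?_
        rw [hw, ← constantCoeff_apply]
        exact ((Ne.isUnit hne).map (S r)).map _
      refine (h1.map π).ne_zero ((hc' _).1 ?_)
      rw [← gen_coeff]
      change (MvPolynomial.aeval y Q).coeff 0 = 0
      rw [h0, coeff_zero]
    · intro h0
      ext n
      rw [coeff_zero]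
      refine (gen_coeff c Q n).trans ((hc' _).2 ?_)
      have : MvPolynomial.aeval w
          ((MvPolynomial.aeval (gen k (Option ι) (M + n0 + 2)) Q).coeff n) = 0 := by
        funext r
        rw [hw, h0, map_zero, coeff_zero]
        rfl
      rw [this, map_zero]
  have hb : c (none, ⟨1, by omega⟩) ≠ 0 := by
    rw [Ne, hcX]
    have : w (none, ⟨1, by omega⟩) = P ^ c1 := by
      funext r
      change (S r (g none)).coeff 1 = P r ^ c1
      rw [hS1, coeff_add, coeff_C_of_ne_zero one_ne_zero, coeff_C_mul, coeff_X_one, zero_add, mul_one]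
    rw [this, map_pow]
    exact pow_ne_zero _ hπP
  have hn : y none = C (c (none, ⟨0, by omega⟩)) + C (c (none, ⟨1, by omega⟩)) * X := by
    ext n
    rw [gp_coeff]
    rcases n with _ | _ | n
    · simp
    · simp
    · have e : ∀ {R : Type} [CommRing R] (a b : R), (C a + C b * X).coeff (n + 1 + 1) = 0 := by
        intro R _ a b
        simp
      rw [e]
      split_ifs with hlt
      · rw [hcX]
        have : w (none, ⟨n + 1 + 1, hlt⟩) = 0 := by
          funext r
          change (S r (g none)).coeff (n + 1 + 1) = 0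
          rw [hS1, e]
        rw [this, map_zero]
      · rfl
  have h0 : (y (some j0)).coeff n0 ≠ 0 := by
    rw [gp_coeff, dif_pos (by omega), Ne, hcX]
    have : w (some j0, ⟨n0, by omega⟩) =
        (fun r => IsScalarTower.toAlgHom k E (B E r) u) * P ^ c0 := by
      funext r
      exact hS3 r
    rw [this, map_mul, map_pow]
    refine mul_ne_zero (IsUnit.ne_zero (IsUnit.map π ?_)) (pow_ne_zero _ hπP)
    exact Pi.isUnit_iff.2 fun r => (Ne.isUnit hu).map _
  obtain ⟨θ, hθ1, hθ2, hθ3⟩ := subst k (c (none, ⟨0, by omega⟩)) _ hb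
  refine ⟨fun j => θ (y (some j)), ?_, fun Q => ?_⟩
  · rw [hθ3]
    exact le_natDegree_of_ne_zero h0
  · have e : tup (fun j => θ (y (some j))) = fun o => θ (y o) := by
      funext o
      rcases o with _ | j
      · rw [hn, hθ1]; rfl
      · rfl
    rw [e, ← MvPolynomial.comp_aeval_apply, ← hy]
    exact ⟨hθ2 _, fun e => by rw [e, map_zero]⟩

end Pool.Agent.MP_d395f7_lc.H9
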