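import Pool.Agent.MP_d395f7_lc.H9.Spec

/-! Step 1: the point, the valuation ring and the polynomial arc. -/

namespace Pool.Agent.MP_d395f7_lc.H9

open Polynomial

theorem pin_pow {F L : Type} [Field F] [Field L] [Algebra F L] (O : Subalgebra F L) (e : O)
    {a : L} {m n : ℕ} (h : (e : L) ^ m * a ∈ O) (hmn : m ≤ n) : (e : L) ^ n * a ∈ O := by
  obtain ⟨c, rfl⟩ := Nat.exists_eq_add_of_le hmn
  rw [pow_add, mul_comm ((e : L) ^ m), mul_assoc]
  exact O.mul_mem (O.pow_mem e.2 c) h

theorem pin_build (k : Type) [Field k] (ι : Type) (j0 : ι) (F L : Type) [Field F] [Field L]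
    [Algebra k F] [Algebra F L] [Algebra k L] [IsScalarTower k F L] (g : Option ι → F)
    (hg : ∀ a : F, ∃ Q₁ Q₂ : MvPolynomial (Option ι) k,
      a = MvPolynomial.aeval g Q₁ / MvPolynomial.aeval g Q₂)
    (D : Option ι → ℕ → L) (N : ℕ) (hN : 0 < N) (d0 : ∀ o, D o 0 = algebraMap F L (g o))
    (d1 : D none 1 = 1) (d2 : ∀ i, D none (i + 2) = 0) (dN : ∀ o n, N ≤ n → D o n = 0)
    (rel : ∀ (c : L) (Q : MvPolynomial (Option ι) k) (Y : Option ι → L[X]),
      MvPolynomial.aeval g Q = 0 → (∀ o n, (Y o).coeff n = D o n * c ^ n) →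
        MvPolynomial.aeval Y Q = 0)
    (O : Subalgebra F L) (e : O) (he : e ≠ 0) (hm : (Ideal.span {e}).IsMaximal) (i₁ : ℕ)
    (hs : D (some j0) i₁ ∉ O) (J : ℕ) (hJ : ∀ o n, (e : L) ^ J * D o n ∈ O) :
    ∃ P : Pin k ι j0, ∀ Q : MvPolynomial (Option ι) k,
      MvPolynomial.aeval P.g Q = 0 ↔ MvPolynomial.aeval g Q = 0 := by
  classical
  have he' : (e : L) ≠ 0 := fun h => he (Subtype.ext h)
  let r : Option ι → ℕ → O := fun o i => ⟨(e : L) ^ (J * (i + 1)) * D o (i + 1),
    pin_pow O e (hJ o _) (Nat.le_mul_of_pos_right _ (Nat.succ_pos i))⟩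
  have r0 : ∀ o i, N ≤ i + 1 → r o i = 0 := fun o i h =>
    Subtype.ext (by simp only [r, dN o _ h, mul_zero]; rfl)
  let R : Option ι → O[X] := fun o => ∑ i ∈ Finset.range N, monomial i (r o i)
  have hR : ∀ o i, (R o).coeff i = r o i := fun o i => by
    simp only [R, finsetSum_coeff, coeff_monomial, Finset.sum_ite_eq', Finset.mem_range]
    split_ifs with h
    · rfl
    · exact (r0 o i (by omega)).symm
  have ex : ∃ h : ℕ, ∀ i, (e : L) ^ h * D (some j0) (i + 1) ∈ O := ⟨J, fun i => hJ _ _⟩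
  have hh : Nat.find ex ≤ J := Nat.find_min' ex fun i => hJ _ _
  have h1 : 1 ≤ Nat.find ex := by
    by_contra h
    have h0 : Nat.find ex = 0 := by omega
    have h2 := Nat.find_spec ex
    rw [h0] at h2
    rcases i₁ with _ | i
    · exact hs (d0 _ ▸ O.algebraMap_mem _)
    · exact hs (by simpa using h2 i)
  let φ : ℕ → O := fun i => ⟨(e : L) ^ Nat.find ex * D (some j0) (i + 1), Nat.find_spec ex i⟩
  have φ0 : ∀ i, N ≤ i → e ∣ φ i := fun i h => by
    rw [show φ i = 0 from Subtype.ext (by simp only [φ, dN _ (i + 1) (by omega), mul_zero]; rfl)]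
    exact dvd_zero _
  have ne : ((Finset.range N).filter fun i => ¬ e ∣ φ i).Nonempty := by
    by_contra hn
    refine Nat.find_min ex (m := Nat.find ex - 1) (by omega) fun i => ?_
    obtain ⟨w, hw⟩ : e ∣ φ i := by
      by_contra h
      exact hn ⟨i, Finset.mem_filter.2 ⟨Finset.mem_range.2 (by
        by_contra h'
        exact h (φ0 i (by omega))), h⟩⟩
    have h2 : (e : L) ^ Nat.find ex * D (some j0) (i + 1) = e * w := congrArg Subtype.val hw
    have h3 : (e : L) ^ (Nat.find ex - 1) * D (some j0) (i + 1) = w := by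
      refine mul_left_cancel₀ he' ?_
      rw [← h2, ← mul_assoc, ← pow_succ', Nat.sub_add_cancel h1]
    rw [h3]
    exact w.2
  obtain ⟨i0, m0, mx⟩ := Finset.exists_max_image _ id ne
  rw [Finset.mem_filter, Finset.mem_range] at m0
  let := Ideal.Quotient.field (Ideal.span {e})
  refine ⟨{
    F := F, O := O, E := O ⧸ Ideal.span {e}
    res := Ideal.Quotient.mkₐ F _
    hs := Ideal.Quotient.mkₐ_surjective F _
    e := e, he := he
    hk := fun o => Ideal.Quotient.eq_zero_iff_mem.trans Ideal.mem_span_singleton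
    g := g, hg := hg, N := N, J := J, h := Nat.find ex, i0 := i0, R := R
    hN := fun o => ?_
    hrel := fun Q hQ => ?_
    hRt := ?_
    φ := φ
    hφ := fun i => ?_
    h1 := h1, hJ := hh, hi0 := m0.1, hu := m0.2
    hgt := fun i hi => ?_ }, fun Q => Iff.rfl⟩
  · refine lt_of_le_of_lt (natDegree_le_iff_coeff_eq_zero.2 fun i hi => ?_) (Nat.sub_lt hN one_pos)
    rw [hR, r0 o i (by omega)]
  · let μ : O[X] →ₐ[k] L[X] := mapAlgHom (O.val.restrictScalars k)
    have hμ : Function.Injective μ := map_injective _ Subtype.val_injective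
    refine hμ ?_
    rw [map_zero, ← AlgHom.comp_apply, MvPolynomial.comp_aeval]
    refine rel ((e : L) ^ J) Q _ hQ fun o n => ?_
    change (Polynomial.map _ _).coeff n = _
    rw [coeff_map]
    rcases n with _ | n
    · rw [coeff_add, coeff_C_zero, coeff_X_mul_zero, add_zero, pow_zero, mul_one, d0]
      rfl
    · rw [coeff_add, coeff_C_succ, coeff_X_mul, zero_add, hR, ← pow_mul, mul_comm (D o _)]
      rfl
  · ext i : 1
    rw [hR]
    rcases i with _ | i
    · rw [coeff_C_zero]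
      exact Subtype.ext (by simp [r, d1])
    · rw [coeff_C_succ]
      exact Subtype.ext (by simp [r, d2])
  · rw [hR]
    refine Subtype.ext ?_
    change (e : L) ^ (J * (i + 1)) * _ = (e : L) ^ _ * ((e : L) ^ Nat.find ex * _)
    rw [← mul_assoc, ← pow_add, Nat.sub_add_cancel
      (hh.trans (Nat.le_mul_of_pos_right _ (Nat.succ_pos i)))]
  · by_contra h
    by_cases h' : i < N
    · exact absurd (mx i (Finset.mem_filter.2 ⟨Finset.mem_range.2 h', h⟩)) (not_le.2 hi)
    · exact h (φ0 i (by omega))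

theorem pin_taylor (c : RatFunc ℂ) (f : ℂ[X]) (n : ℕ) :
    (aeval (C c * X + C (RatFunc.X : RatFunc ℂ)) f).coeff n =
      algebraMap ℂ[X] (RatFunc ℂ) (hasseDeriv n f) * c ^ n := by
  have h : aeval (C c * X + C (RatFunc.X : RatFunc ℂ)) f =
      (taylor RatFunc.X (f.map (algebraMap ℂ (RatFunc ℂ)))).comp (C c * X) := by
    rw [taylor_apply, comp_assoc, add_comp, X_comp, C_comp, comp_eq_aeval, aeval_map_algebraMap]
  have h' : hasseDeriv n (f.map (algebraMap ℂ (RatFunc ℂ))) =
      (hasseDeriv n f).map (algebraMap ℂ (RatFunc ℂ)) := Polynomial.ext fun i => by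
    rw [coeff_map, hasseDeriv_coeff, hasseDeriv_coeff, coeff_map, map_mul, map_natCast]
  rw [h, comp_C_mul_X_coeff, taylor_coeff, h', eval_map_algebraMap,
    RatFunc.aeval_X_left_eq_algebraMap]

theorem pinS (h1 : TransS) (h2 : DvrS) : PinS := by
  classical
  intro k _ _ ι _ x j0 d hd hx
  obtain ⟨i₁, hi⟩ := h1 k ι x j0 d hd hx
  set F := IntermediateField.adjoin k
    (Set.range fun o : Option ι => algebraMap ℂ[X] (RatFunc ℂ) (tup x o)) with hF
  let g : Option ι → F := fun o =>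
    ⟨algebraMap ℂ[X] (RatFunc ℂ) (tup x o), IntermediateField.subset_adjoin _ _ ⟨o, rfl⟩⟩
  let D : Option ι → ℕ → RatFunc ℂ := fun o n =>
    algebraMap ℂ[X] (RatFunc ℂ) (hasseDeriv n (tup x o))
  let N : ℕ := (Finset.univ.sup fun o => (tup x o).natDegree) + 1
  have dN : ∀ o n, N ≤ n → D o n = 0 := fun o n h => by
    have : (tup x o).natDegree ≤ _ :=
      Finset.le_sup (f := fun o => (tup x o).natDegree) (Finset.mem_univ o)
    simp only [D]
    rw [hasseDeriv_eq_zero_of_lt_natDegree _ _ (by omega), map_zero]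
  have hv : ∀ Q : MvPolynomial (Option ι) k, ((MvPolynomial.aeval g Q : F) : RatFunc ℂ) =
      MvPolynomial.aeval (fun o => algebraMap ℂ[X] (RatFunc ℂ) (tup x o)) Q := fun Q => by
    change F.val _ = _
    rw [← AlgHom.comp_apply, MvPolynomial.comp_aeval]
    rfl
  have hiff : ∀ Q : MvPolynomial (Option ι) k,
      MvPolynomial.aeval g Q = 0 ↔ MvPolynomial.aeval (tup x) Q = 0 := fun Q => by
    rw [Subtype.ext_iff, hv]
    exact (Eq.congr_left (MvPolynomial.aeval_algebraMap_apply (RatFunc ℂ) (tup x) Q)).trans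
      (map_eq_zero_iff _ (RatFunc.algebraMap_injective ℂ))
  have : CharZero k := (algebraMap k ℂ).charZero
  have : CharZero F := charZero_of_injective_algebraMap (algebraMap k F).injective
  obtain ⟨O, e, he, hm, hs, hA⟩ := h2 F (RatFunc ℂ) _ hi
    ((Finset.univ ×ˢ Finset.range N).image fun a => D a.1 a.2)
  have hA' : ∀ a : Option ι × Fin N, ∃ m : ℕ, (e : RatFunc ℂ) ^ m * D a.1 a.2 ∈ O := fun a =>
    hA _ (Finset.mem_image.2 ⟨(a.1, a.2), by simp, rfl⟩)
  choose m hm' using hA'
  obtain ⟨P, hP⟩ := pin_build k ι j0 F (RatFunc ℂ) g (fun a => by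
      obtain ⟨Q₁, Q₂, h⟩ := (IntermediateField.mem_adjoin_range_iff k _ _).1 a.2
      exact ⟨Q₁, Q₂, Subtype.ext (by rw [h, ← hv, ← hv]; rfl)⟩) D N (Nat.succ_pos _)
    (fun o => by simp only [D, hasseDeriv_zero']; rfl) (by simp [D, tup])
    (fun i => by simp only [D, tup, Option.elim]; rw [hasseDeriv_X _ (by omega), map_zero]) dN
    (fun c Q Y hQ hY => by
      let ψ : ℂ[X] →ₐ[k] (RatFunc ℂ)[X] :=
        (aeval (C c * X + C (RatFunc.X : RatFunc ℂ))).restrictScalars k
      have : Y = fun o => ψ (tup x o) := funext fun o => Polynomial.ext fun n =>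
        (hY o n).trans (pin_taylor c _ n).symm
      rw [this, ← MvPolynomial.comp_aeval, AlgHom.comp_apply, (hiff Q).1 hQ, map_zero])
    O e he hm i₁ hs (Finset.univ.sup m) fun o n => by
      by_cases h : n < N
      · exact pin_pow O e (hm' (o, ⟨n, h⟩)) (Finset.le_sup (Finset.mem_univ _))
      · rw [dN o n (by omega), mul_zero]
        exact O.zero_mem
  exact ⟨P, fun Q => (hP Q).trans (hiff Q)⟩

end Pool.Agent.MP_d395f7_lc.H9
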