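import Pool.Agent.MP_d395f7_lc.H9.Spec

/-! Some Taylor coefficient is transcendental over the field generated by the tuple. -/

namespace Pool.Agent.MP_d395f7_lc.H9

open Polynomial

/-- A Taylor shift keeps the coefficients in a subring. -/
theorem tr_taylor {L : Type} [CommRing L] (A : Subring L) (g : L[X]) (hg : ∀ n, g.coeff n ∈ A)
    {s : L} (hs : s ∈ A) (n : ℕ) : (taylor s g).coeff n ∈ A := by
  rw [taylor_coeff, eval_eq_sum_range]
  refine A.sum_mem fun i _ => A.mul_mem ?_ (A.pow_mem hs _)
  rw [hasseDeriv_coeff]
  exact A.mul_mem (natCast_mem A _) (hg _)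

theorem tr_map {R L : Type} [CommRing R] [CommRing L] (f : R →+* L) (g : R[X]) (n : ℕ) :
    hasseDeriv n (g.map f) = (hasseDeriv n g).map f := by
  ext i
  simp only [hasseDeriv_coeff, coeff_map, map_mul, map_natCast]

/-- Independent elements algebraic over a finitely generated field are few. -/
theorem tr_card {k L ι κ : Type} [Field k] [Field L] [Algebra k L] [Fintype ι] [Fintype κ]
    (c : ι → L) (s : κ → L) (hc : AlgebraicIndependent k c)
    (h : ∀ i, IsAlgebraic (IntermediateField.adjoin k (Set.range s)) (c i)) :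
    Fintype.card ι ≤ Fintype.card κ := by
  have h1 : (AlgebraicIndependent.matroid k L).Indep (Set.range c) :=
    AlgebraicIndependent.matroid_indep_iff.2 hc.to_subtype_range
  have h2 : Set.range c ⊆ (AlgebraicIndependent.matroid k L).closure (Set.range s) := by
    rw [AlgebraicIndependent.matroid_closure_eq]
    rintro _ ⟨i, rfl⟩
    exact (Subalgebra.mem_algebraicClosure ..).2
      (IntermediateField.isAlgebraic_adjoin_iff.1 (h i))
  have h3 := (h1.encard_le_eRk_of_subset h2).trans
    ((Matroid.eRk_closure_eq _ _).le.trans (Matroid.eRk_le_encard _ _))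
  have h4 : (Set.range s).encard ≤ ENat.card κ := by
    rw [← Set.image_univ, ← Set.encard_univ]
    exact Set.encard_image_le _ _
  have h5 := hc.injective.encard_range.trans (h3.trans h4)
  rw [ENat.card_eq_coe_fintype_card, ENat.card_eq_coe_fintype_card] at h5
  exact_mod_cast h5

theorem transS : TransS := by
  intro k _ _ ι _ x j0 d hd hx
  by_contra hne
  simp only [not_exists, Transcendental, not_not] at hne
  set s : Option ι → RatFunc ℂ := fun o => algebraMap ℂ[X] (RatFunc ℂ) (tup x o) with hs
  let A := (algebraicClosure (IntermediateField.adjoin k (Set.range s)) (RatFunc ℂ)).toSubring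
  have hA : ∀ y, y ∈ A ↔ IsAlgebraic (IntermediateField.adjoin k (Set.range s)) y :=
    fun y => mem_algebraicClosure_iff
  have ht : s none ∈ A := (hA _).2 (isAlgebraic_algebraMap
    (⟨s none, IntermediateField.subset_adjoin k _ ⟨none, rfl⟩⟩ :
      IntermediateField.adjoin k (Set.range s)))
  let g : (RatFunc ℂ)[X] := (x j0).map (algebraMap ℂ (RatFunc ℂ))
  have h1 : ∀ n, (taylor (s none) g).coeff n ∈ A := fun n => by
    rw [taylor_coeff, tr_map, eval_map_algebraMap]
    have : aeval (s none) (hasseDeriv n (x j0)) =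
        algebraMap ℂ[X] (RatFunc ℂ) (hasseDeriv n (x j0)) := by
      change aeval (algebraMap ℂ[X] (RatFunc ℂ) X) _ = _
      rw [aeval_algebraMap_apply, aeval_X_left_apply]
    rw [this]
    exact (hA _).2 (hne n)
  have h2 : ∀ n, g.coeff n ∈ A := fun n => by
    have := tr_taylor A _ h1 (A.neg_mem ht) n
    rwa [taylor_taylor, neg_add_cancel, taylor_zero] at this
  let φ : ℂ →ₐ[k] RatFunc ℂ :=
    { algebraMap ℂ (RatFunc ℂ) with commutes' := fun _ => rfl }
  have h3 := tr_card _ s (hx.map' (f := φ) φ.toRingHom.injective) fun i => by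
    have := (hA _).1 (h2 i)
    rw [coeff_map] at this
    exact this
  simp only [Fintype.card_fin, Fintype.card_option] at h3
  omega

end Pool.Agent.MP_d395f7_lc.H9
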