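import Mathlib
import Pool.Agent.MP_d395f7_lc.H9.Spec
import Pool.Agent.MP_d395f7_lc.H9.Trans
import Pool.Agent.MP_d395f7_lc.H9.Dvr
import Pool.Agent.MP_d395f7_lc.H9.Emb
import Pool.Agent.MP_d395f7_lc.H9.PinC
import Pool.Agent.MP_d395f7_lc.H9.Level
import Pool.Agent.MP_d395f7_lc.H9.Limit

/-! The ring-theoretic main theorem. -/

namespace Pool.Agent.MP_d395f7_lc.H9

theorem mainS : MainS := main_of (pinS transS dvrS) levelS (limitS embS)

end Pool.Agent.MP_d395f7_lc.H9
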